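import Pool.Agent.Run7.h738.EX.Fam

/-! # Bumps at the ends of the diameters -/

set_option autoImplicit false

namespace Run7.h647.DM

open scoped Classical
open Run7.h738.EX

variable {V : Type} (L : Lay V)

/-- usable edges -/
def GT (o : V) (l : List V) (n i : ℕ) : Prop :=
  i < n ∧ L.h (site o l i) = L.h (site o l (i + 1)) ∧ Top L l (site o l i) ∧
    Top L l (site o l (i + 1))

section
variable {D : Set V} {o : V} {n : ℕ} {l : List V}

theorem lab_ok {k : ℕ} {S : Finset ℕ} (hS : ∀ i ∈ S, GT L o l n i)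
    {q : ℕ × ℕ} (hq : q ∈ LAB k S n) : q.1 ≤ n ∧ (q.2 = 0 ∨ Top L l (site o l q.1)) := by
  rw [mem_LAB] at hq
  rcases hq with h | ⟨i, hi, h1, h2, h3⟩
  · exact ⟨h.2, Or.inl h.1⟩
  · obtain ⟨g1, g2, g4, g5⟩ := hS i hi
    rcases h2 with h2 | h2
    · rw [h2]
      exact ⟨g1.le, Or.inr g4⟩
    · rw [h2]
      exact ⟨g1, Or.inr g5⟩

theorem new_nodup (hl : l ∈ WK L D o n) {k : ℕ} {S : Finset ℕ}
    (hS : ∀ i ∈ S, GT L o l n i) (hS2 : ∀ i ∈ S, i + 1 ∉ S) : (new L o l n k S).Nodup := by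
  unfold new
  refine List.Nodup.map_on ?_ (LAB_nodup k hS2 n)
  intro a ha b hb hab
  obtain ⟨a1, a2⟩ := lab_ok L hS ha
  obtain ⟨b1, b2⟩ := lab_ok L hS hb
  exact put_inj L (fun i hi => site_mem L hl hi) (fun i hi j hj => site_inj L hl hi hj) a1 b1
    a2 b2 hab

/-- the new walk is a walk -/
theorem new_mem (hp : L.p = 1) (hl : l ∈ WK L D o n) (hD : ∀ v ∈ D, L.up v ∈ D) {S : Finset ℕ}
    (hS : ∀ i ∈ S, GT L o l n i) (hS2 : ∀ i ∈ S, i + 1 ∉ S) :
    new L o l n 1 S ∈ WK L D o (n + 2 * S.card) := by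
  have hSn : S.filter (fun i => i ≤ n) = S := by
    rw [Finset.filter_eq_self]
    intro i hi
    exact (hS i hi).1.le
  refine ⟨?_, ?_, ?_, new_nodup L hl hS hS2, ?_⟩
  · unfold new
    rw [List.length_map, LAB_length, hSn]
    ring
  · unfold new
    rw [List.head?_map, LAB_head]
    unfold put
    simp only [Option.map_some, Function.iterate_zero, id_eq]
    rw [site_zero L hl]
  · unfold new
    rw [List.isChain_map]
    refine LAB_chain L _ (le_refl 1) S n ?_ (fun i hi => site_adj L hl hi)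
    intro i hi
    obtain ⟨g1, g2, -⟩ := hS i hi
    have := L.per_it 1 (site_adj L hl g1) g2
    rwa [hp] at this
  · intro v hv
    unfold new at hv
    rw [List.mem_map] at hv
    obtain ⟨q, hq, rfl⟩ := hv
    have h1 := (lab_ok L hS hq).1
    exact up_D L hD (hl.2.2.2.2 _ (site_mem L hl h1)) _

/-- the insertion of bumps, one plaquette at a time -/
theorem new_step {P : List V → Prop} (hP : Step L P) (hl : l ∈ WK L D o n) (h0 : P l)
    (S : Finset ℕ) (hS : ∀ i ∈ S, GT L o l n i) (hS2 : ∀ i ∈ S, i + 1 ∉ S) :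
    P (new L o l n 1 S) := by
  induction S using Finset.induction_on with
  | empty =>
    have : new L o l n 1 ∅ = l := by
      conv_rhs => rw [← map_site L hl]
      unfold new
      have h1 : LAB 1 ∅ n = (List.range (n + 1)).map (fun i => (i, 0)) := by
        rw [← LAB_filter 1 ∅ n]
        symm
        rw [List.filter_eq_self]
        intro q hq
        rw [mem_LAB] at hq
        simp at hq
        simp [hq.1]
      rw [h1, List.map_map]
      refine List.map_congr_left ?_
      intro i _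
      simp [put]
    rw [this]
    exact h0
  | insert i S hi ih =>
    have ih' := ih (fun j hj => hS j (Finset.mem_insert_of_mem hj))
      (fun j hj h => hS2 j (Finset.mem_insert_of_mem hj) (Finset.mem_insert_of_mem h))
    obtain ⟨g1, g2, g4, g5⟩ := hS i (Finset.mem_insert_self _ _)
    obtain ⟨A, B, e1, e2⟩ := LAB_split (k := 1) g1 hi
    unfold new at ih' ⊢
    rw [e1] at ih'
    rw [e2]
    refine tall L hP ih' g2 ?_ 1 (le_refl _)
    intro c hc q hq
    have hA : ∀ q ∈ A ++ (i, 0) :: (i + 1, 0) :: B, q ∈ LAB 1 S n := by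
      intro q hq
      rw [e1]
      exact hq
    have hq2 : q ∈ LAB 1 S n ∨ (q.1 = i ∧ 1 ≤ q.2 ∧ q.2 ≤ c) ∨ (q.1 = i + 1 ∧ 1 ≤ q.2 ∧ q.2 ≤ c) := by
      rw [List.mem_append, List.mem_cons, List.mem_append, List.mem_append, List.mem_cons, mem_asc,
        mem_dsc] at hq
      rcases hq with h | h | h | h | h | h
      · exact Or.inl (hA q (by simp [h]))
      · exact Or.inl (hA q (by simp [h]))
      · exact Or.inr (Or.inl h)
      · exact Or.inr (Or.inr h)
      · exact Or.inl (hA q (by simp [h]))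
      · exact Or.inl (hA q (by simp [h]))
    have hqok : q.1 ≤ n ∧ (q.2 = 0 ∨ Top L l (site o l q.1)) := by
      rcases hq2 with h | h | h
      · exact lab_ok L (fun j hj => hS j (Finset.mem_insert_of_mem hj)) h
      · rw [h.1]
        exact ⟨g1.le, Or.inr g4⟩
      · rw [h.1]
        exact ⟨g1, Or.inr g5⟩
    constructor
    · intro h
      have h2 : q = (i, c + 1) := put_inj L (l := l) (g := site o l) (n := n)
        (fun i hi => site_mem L hl hi) (fun i hi j hj => site_inj L hl hi hj) hqok.1 g1.le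
        hqok.2 (Or.inr g4) h
      rw [h2] at hq2
      simp only [mem_LAB] at hq2
      rcases hq2 with (h3 | ⟨j, hj, h3, h4, h5⟩) | h3 | h3
      · omega
      · rcases h4 with h4 | h4
        · rw [h4] at hi
          exact hi hj
        · refine hS2 j (Finset.mem_insert_of_mem hj) ?_
          rw [← h4]
          exact Finset.mem_insert_self _ _
      · omega
      · omega
    · intro h
      have h2 : q = (i + 1, c + 1) := put_inj L (l := l) (g := site o l) (n := n)
        (fun i hi => site_mem L hl hi) (fun i hi j hj => site_inj L hl hi hj) hqok.1 g1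
        hqok.2 (Or.inr g5) h
      rw [h2] at hq2
      simp only [mem_LAB] at hq2
      rcases hq2 with (h3 | ⟨j, hj, h3, h4, h5⟩) | h3 | h3
      · omega
      · rcases h4 with h4 | h4
        · refine hS2 i (Finset.mem_insert_self _ _) ?_
          rw [h4]
          exact Finset.mem_insert_of_mem hj
        · have h6 : i = j := by omega
          rw [h6] at hi
          exact hi hj
      · omega
      · omega

/-- the sites of the new walk -/
theorem mem_new (hl : l ∈ WK L D o n) {S : Finset ℕ} (hS : ∀ i ∈ S, GT L o l n i) {z : V} :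
    z ∈ new L o l n 1 S ↔ z ∈ l ∨ ∃ i ∈ S, ∃ x, (x = site o l i ∨ x = site o l (i + 1)) ∧
      z = L.up x := by
  unfold new
  rw [List.mem_map]
  constructor
  · rintro ⟨q, hq, rfl⟩
    rw [mem_LAB] at hq
    rcases hq with h | ⟨i, hi, h1, h2, h3, h4⟩
    · left
      unfold put
      rw [h.1]
      exact site_mem L hl h.2
    · right
      have h5 : q.2 = 1 := by omega
      refine ⟨i, hi, site o l q.1, ?_, ?_⟩
      · rcases h2 with h2 | h2
        · left
          rw [h2]
        · right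
          rw [h2]
      · unfold put
        rw [h5]
        rfl
  · rintro (h | ⟨i, hi, x, hx, rfl⟩)
    · obtain ⟨j, hj, rfl⟩ := mem_site L hl h
      exact ⟨(j, 0), mem_LAB.2 (Or.inl ⟨rfl, hj⟩), rfl⟩
    · have g := hS i hi
      rcases hx with rfl | rfl
      · exact ⟨(i, 1), mem_LAB.2 (Or.inr ⟨i, hi, g.1.le, Or.inl rfl, le_refl _, le_refl _⟩), rfl⟩
      · exact ⟨(i + 1, 1), mem_LAB.2 (Or.inr ⟨i, hi, g.1.le, Or.inr rfl, le_refl _, le_refl _⟩), rfl⟩

/-- the good edges which were used are seen in the new walk -/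
theorem mem_S_iff (hl : l ∈ WK L D o n) {S : Finset ℕ} {π : ℕ}
    (hS : ∀ i ∈ S, GT L o l n i) (hπ : ∀ i ∈ S, i % 2 = π) {i : ℕ} (hi : GT L o l n i)
    (hiπ : i % 2 = π) : i ∈ S ↔ L.up (site o l i) ∈ new L o l n 1 S := by
  constructor
  · intro h
    exact (mem_new L hl hS).2 (Or.inr ⟨i, h, _, Or.inl rfl, rfl⟩)
  · intro h
    rcases (mem_new L hl hS).1 h with h1 | ⟨j, hj, x, hx, h1⟩
    · exact absurd h1 (hi.2.2.1 1 (le_refl _))
    · have h2 := L.up_inj h1
      have gj := hS j hj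
      have hi' := hi.1
      have hj' := gj.1
      rcases hx with hx | hx
      · rw [hx] at h2
        have := site_inj L hl (by omega) (by omega) h2
        rw [this]
        exact hj
      · rw [hx] at h2
        have h3 := site_inj L hl (by omega) (by omega) h2
        have := hπ j hj
        omega

/-- the old walk as a filter of the new one -/
theorem new_filter (hl : l ∈ WK L D o n) {S : Finset ℕ} (hS : ∀ i ∈ S, GT L o l n i) :
    (new L o l n 1 S).filter (fun z => decide (z ∈ l)) = l := by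
  conv_rhs => rw [← map_site L hl]
  have h1 : (new L o l n 1 S).filter (fun z => decide (z ∈ l)) =
      ((LAB 1 S n).filter (fun q => decide (q.2 = 0))).map (put L (site o l)) := by
    rw [new, List.filter_map]
    congr 1
    refine List.filter_congr ?_
    intro q hq
    simp only [Function.comp_apply]
    rw [decide_eq_decide]
    obtain ⟨q1, q2⟩ := lab_ok L hS hq
    constructor
    · intro h
      by_contra h0
      rcases q2 with q2 | q2
      · exact h0 q2
      · exact q2 q.2 (by omega) h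
    · intro h
      unfold put
      rw [h]
      exact site_mem L hl q1
  rw [h1, LAB_filter, List.map_map]
  refine List.map_congr_left ?_
  intro i _
  simp [put]

end

/-! ### Squared distances -/

/-- a squared distance adapted to the height -/
structure MQ (q : V → V → ℤ) : Prop where
  symm : ∀ v u, q v u = q u v
  up : ∀ v u, q (L.up v) u = q v u + 2 * (L.h v - L.h u) + 1

/-- `v` is far above `u` -/
def Dom (q : V → V → ℤ) (v u : V) : Prop :=
  L.h u < L.h v ∧ ∀ w, L.adj v w → L.h w = L.h v → q v u + 1 ≤ q w u + 2 * (L.h v - L.h u)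

/-- the squared diameter -/
def IsD (q : V → V → ℤ) (l : List V) (Δ : ℤ) : Prop :=
  (∃ a ∈ l, ∃ b ∈ l, q a b = Δ) ∧ ∀ a ∈ l, ∀ b ∈ l, q a b ≤ Δ

variable {q : V → V → ℤ}

theorem IsD_unique {l : List V} {Δ Δ' : ℤ} (h : IsD q l Δ) (h' : IsD q l Δ') : Δ = Δ' := by
  obtain ⟨⟨a, ha, b, hb, h1⟩, h2⟩ := h
  obtain ⟨⟨a', ha', b', hb', h1'⟩, h2'⟩ := h'
  have := h2 a' ha' b' hb'
  have := h2' a ha b hb
  omega

theorem q_it (hq : MQ L q) (t : ℕ) (v u : V) :
    q (L.up^[t] v) u = q v u + 2 * t * (L.h v - L.h u) + (t : ℤ) ^ 2 := by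
  induction t with
  | zero => simp
  | succ t ih =>
    rw [Function.iterate_succ_apply', hq.up, ih, L.h_it]
    push_cast
    ring

/-- good edges -/
def Ge (q : V → V → ℤ) (o : V) (l : List V) (n : ℕ) (Δ : ℤ) (i : ℕ) : Prop :=
  i < n ∧ L.h (site o l i) = L.h (site o l (i + 1)) ∧
    ∃ v u, (v = site o l i ∨ v = site o l (i + 1)) ∧ u ∈ l ∧ q v u = Δ ∧ Dom L q v u

section
variable {D : Set V} {o : V} {n : ℕ} {l : List V}

/-- the two ends of a good edge are far from the partner, after a shift -/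
theorem Ge_far (hq : MQ L q) (hl : l ∈ WK L D o n) {Δ : ℤ} {i : ℕ} (h : Ge L q o l n Δ i) {x : V}
    (hx : x = site o l i ∨ x = site o l (i + 1)) :
    ∃ u ∈ l, L.h u < L.h x ∧ ∀ t : ℕ, 1 ≤ t → Δ < q (L.up^[t] x) u := by
  obtain ⟨h1, h2, v, u, hv, hu, h3, h4, h5⟩ := h
  have hadj : L.adj (site o l i) (site o l (i + 1)) := site_adj L hl h1
  have hxv : x = v ∨ (L.adj v x ∧ L.h x = L.h v) := by
    rcases hx with rfl | rfl <;> rcases hv with rfl | rfl
    · exact Or.inl rfl
    · exact Or.inr ⟨L.symm _ _ hadj, h2⟩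
    · exact Or.inr ⟨hadj, h2.symm⟩
    · exact Or.inl rfl
  refine ⟨u, hu, ?_, ?_⟩
  · rcases hxv with rfl | ⟨-, h6⟩
    · exact h4
    · rw [h6]
      exact h4
  · intro t ht
    rw [q_it L hq]
    have ht' : (1 : ℤ) ≤ t := by exact_mod_cast ht
    rcases hxv with rfl | ⟨h6, h7⟩
    · have : 0 < (t : ℤ) * (L.h x - L.h u) := mul_pos (by omega) (by omega)
      nlinarith
    · have h8 := h5 x h6 h7
      rw [h7]
      have h9 : 0 ≤ ((t : ℤ) - 1) * (L.h v - L.h u) := mul_nonneg (by omega) (by omega)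
      nlinarith

theorem Ge_GT (hq : MQ L q) (hl : l ∈ WK L D o n) {Δ : ℤ} (hΔ : IsD q l Δ) {i : ℕ}
    (h : Ge L q o l n Δ i) : GT L o l n i := by
  refine ⟨h.1, h.2.1, ?_, ?_⟩
  · intro t ht hmem
    obtain ⟨u, hu, -, h1⟩ := Ge_far L hq hl h (Or.inl rfl)
    have := hΔ.2 _ hmem u hu
    have := h1 t ht
    omega
  · intro t ht hmem
    obtain ⟨u, hu, -, h1⟩ := Ge_far L hq hl h (Or.inr rfl)
    have := hΔ.2 _ hmem u hu
    have := h1 t ht
    omega

/-- lowering the lower site -/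
theorem q_low (hq : MQ L q) {z x : V} (h : L.h (L.up x) < L.h z) : q z (L.up x) < q z x := by
  rw [hq.symm z (L.up x), hq.up, hq.symm x z]
  rw [L.h_up] at h
  omega

/-- the new sites are recognised -/
theorem new_iff (hq : MQ L q) (hl : l ∈ WK L D o n) {Δ : ℤ} (hΔ : IsD q l Δ) {S : Finset ℕ}
    (hS : ∀ i ∈ S, Ge L q o l n Δ i) {z : V} (hz : z ∈ new L o l n 1 S) :
    z ∈ l ↔ ¬ ∃ u ∈ new L o l n 1 S, L.h u < L.h z ∧ Δ < q z u := by
  have hS' : ∀ i ∈ S, GT L o l n i := fun i hi => Ge_GT L hq hl hΔ (hS i hi)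
  constructor
  · rintro hzl ⟨u, hu, h1, h2⟩
    rcases (mem_new L hl hS').1 hu with h3 | ⟨i, hi, x, hx, rfl⟩
    · have := hΔ.2 z hzl u h3
      omega
    · have h4 := q_low L hq h1
      have hxl : x ∈ l := by
        have g := (hS' i hi).1
        rcases hx with rfl | rfl
        · exact site_mem L hl (by omega)
        · exact site_mem L hl (by omega)
      have := hΔ.2 z hzl x hxl
      omega
  · intro h
    rcases (mem_new L hl hS').1 hz with h3 | ⟨i, hi, x, hx, rfl⟩
    · exact h3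
    · exfalso
      apply h
      obtain ⟨u, hu, h1, h2⟩ := Ge_far L hq hl (hS i hi) hx
      refine ⟨u, (mem_new L hl hS').2 (Or.inl hu), ?_, ?_⟩
      · rw [L.h_up]
        omega
      · exact h2 1 (le_refl _)

/-- the squared diameter is seen from an end of a diameter -/
theorem diam_rec (hq : MQ L q) (hl : l ∈ WK L D o n) {Δ : ℤ} (hΔ : IsD q l Δ) {S : Finset ℕ}
    (hS : ∀ i ∈ S, Ge L q o l n Δ i) {v u : V} (hv : v ∈ l) (hu : u ∈ l) (h1 : q v u = Δ)
    (h2 : L.h u < L.h v) :
    IsGreatest {x | ∃ z ∈ new L o l n 1 S, L.h z < L.h v ∧ x = q v z} Δ := by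
  have hS' : ∀ i ∈ S, GT L o l n i := fun i hi => Ge_GT L hq hl hΔ (hS i hi)
  refine ⟨⟨u, (mem_new L hl hS').2 (Or.inl hu), h2, h1.symm⟩, ?_⟩
  rintro _ ⟨z, hz, h3, rfl⟩
  rcases (mem_new L hl hS').1 hz with h4 | ⟨i, hi, x, hx, rfl⟩
  · exact hΔ.2 v hv z h4
  · have h5 := q_low L hq h3
    have hxl : x ∈ l := by
      have g := (hS' i hi).1
      rcases hx with rfl | rfl
      · exact site_mem L hl (by omega)
      · exact site_mem L hl (by omega)
    have := hΔ.2 v hv x hxl
    omega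

end

theorem exists_far {l : List V} (hl : l ≠ []) : ∃ a ∈ l, ∃ b ∈ l, ∀ a' ∈ l, ∀ b' ∈ l,
    q a' b' ≤ q a b := by
  obtain ⟨x, hx, h⟩ := Finset.exists_max_image (l.toFinset ×ˢ l.toFinset) (fun x => q x.1 x.2)
    (((List.toFinset_nonempty_iff l).2 hl).product ((List.toFinset_nonempty_iff l).2 hl))
  rw [Finset.mem_product, List.mem_toFinset, List.mem_toFinset] at hx
  exact ⟨x.1, hx.1, x.2, hx.2, fun a ha b hb => h (a, b)
    (Finset.mem_product.2 ⟨List.mem_toFinset.2 ha, List.mem_toFinset.2 hb⟩)⟩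

theorem exists_D {l : List V} (hl : l ≠ []) : ∃ Δ, IsD q l Δ := by
  obtain ⟨a, ha, b, hb, h⟩ := exists_far (q := q) hl
  exact ⟨q a b, ⟨a, ha, b, hb, rfl⟩, h⟩

/-- the sites close to the ends of a diameter of the new walk -/
noncomputable def Opt (q : V → V → ℤ) (l : List V) : Finset V :=
  if h : ∃ x : V × V, x.1 ∈ l ∧ x.2 ∈ l ∧ ∀ a ∈ l, ∀ b ∈ l, q a b ≤ q x.1 x.2 then
    Ball L h.choose.1 2 ∪ Ball L h.choose.2 2 else ∅

theorem Opt_card (l : List V) : (Opt L q l).card ≤ 2 * (L.Δ + 1) ^ 2 := by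
  unfold Opt
  split_ifs with h
  · refine (Finset.card_union_le _ _).trans ?_
    have h1 := Ball_card L h.choose.1 2
    have h2 := Ball_card L h.choose.2 2
    omega
  · simp

section
variable {D : Set V} {o : V} {n : ℕ} {l : List V}

theorem Opt_spec (hq : MQ L q) (hl : l ∈ WK L D o n) {Δ : ℤ} (hΔ : IsD q l Δ) {S : Finset ℕ}
    (hS : ∀ i ∈ S, Ge L q o l n Δ i) (hne : S.Nonempty) :
    ∃ v ∈ Opt L q (new L o l n 1 S), v ∈ l ∧ ∃ u ∈ l, q v u = Δ ∧ L.h u < L.h v := by
  have hS' : ∀ i ∈ S, GT L o l n i := fun i hi => Ge_GT L hq hl hΔ (hS i hi)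
  have hlne := WK_ne L hl
  have hex : ∃ x : V × V, x.1 ∈ new L o l n 1 S ∧ x.2 ∈ new L o l n 1 S ∧
      ∀ a ∈ new L o l n 1 S, ∀ b ∈ new L o l n 1 S, q a b ≤ q x.1 x.2 := by
    have hne' : new L o l n 1 S ≠ [] := by
      obtain ⟨a, ha⟩ := List.exists_mem_of_ne_nil l hlne
      exact List.ne_nil_of_mem ((mem_new L hl hS').2 (Or.inl ha))
    obtain ⟨a, ha, b, hb, h⟩ := exists_far (q := q) hne'
    exact ⟨(a, b), ha, hb, h⟩
  have hOpt : Opt L q (new L o l n 1 S) = Ball L hex.choose.1 2 ∪ Ball L hex.choose.2 2 := by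
    unfold Opt
    rw [dif_pos hex]
  obtain ⟨c1, c2, c3⟩ := hex.choose_spec
  set x := hex.choose with hx
  -- the diameter of the new walk is larger
  have hbig : Δ < q x.1 x.2 := by
    obtain ⟨i, hi⟩ := hne
    obtain ⟨u, hu, -, h1⟩ := Ge_far L hq hl (hS i hi) (x := site o l i) (Or.inl rfl)
    have h2 := h1 1 (le_refl _)
    have h3 := c3 (L.up (site o l i)) ((mem_new L hl hS').2 (Or.inr ⟨i, hi, _, Or.inl rfl, rfl⟩)) u
      ((mem_new L hl hS').2 (Or.inl hu))
    exact lt_of_lt_of_le h2 h3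
  -- an end of a diameter close to a new site
  have key : ∀ p : V, p ∈ new L o l n 1 S → p ∉ l →
      ∃ v ∈ Ball L p 2, v ∈ l ∧ ∃ u ∈ l, q v u = Δ ∧ L.h u < L.h v := by
    intro p hp hpl
    rcases (mem_new L hl hS').1 hp with h4 | ⟨i, hi, y, hy, rfl⟩
    · exact absurd h4 hpl
    · obtain ⟨g1, g2, v, u, hv, hu, g3, g4, g5⟩ := hS i hi
      have hb0 : L.up y ∈ Ball L (L.up y) 0 := by simp [Ball]
      have hb1 : y ∈ Ball L (L.up y) 1 := Ball_adj L hb0 (L.symm _ _ (L.adj_up y))
      have hadj : L.adj (site o l i) (site o l (i + 1)) := site_adj L hl g1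
      refine ⟨v, ?_, ?_, u, hu, g3, g4⟩
      · have h5 : v = y ∨ L.adj y v := by
          rcases hv with rfl | rfl <;> rcases hy with rfl | rfl
          · exact Or.inl rfl
          · exact Or.inr (L.symm _ _ hadj)
          · exact Or.inr hadj
          · exact Or.inl rfl
        rcases h5 with rfl | h5
        · exact Ball_mono L _ (by norm_num) hb1
        · exact Ball_adj L hb1 h5
      · rcases hv with rfl | rfl
        · exact site_mem L hl (by omega)
        · exact site_mem L hl (by omega)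
  have hcase : x.1 ∉ l ∨ x.2 ∉ l := by
    by_contra hcon
    push Not at hcon
    have := hΔ.2 _ hcon.1 _ hcon.2
    omega
  rcases hcase with h | h
  · obtain ⟨v, hv, h1⟩ := key _ c1 h
    exact ⟨v, by rw [hOpt]; exact Finset.mem_union_left _ hv, h1⟩
  · obtain ⟨v, hv, h1⟩ := key _ c2 h
    exact ⟨v, by rw [hOpt]; exact Finset.mem_union_right _ hv, h1⟩

end

/-- the good edges of a class -/
noncomputable def YS (q : V → V → ℤ) (o : V) (l : List V) (n π : ℕ) : Finset ℕ :=
  (Finset.range n).filter (fun i => i % 2 = π ∧ ∃ Δ, IsD q l Δ ∧ Ge L q o l n Δ i)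

theorem YS_ok {o : V} {l : List V} {n π : ℕ} {Δ : ℤ} (hΔ : IsD q l Δ) {S : Finset ℕ}
    (hS : S ⊆ YS L q o l n π) : (∀ i ∈ S, Ge L q o l n Δ i) ∧ (∀ i ∈ S, i % 2 = π) ∧
    ∀ i ∈ S, i + 1 ∉ S := by
  have h2 : ∀ i ∈ S, i % 2 = π := by
    intro i hi
    have := hS hi
    unfold YS at this
    rw [Finset.mem_filter] at this
    exact this.2.1
  refine ⟨fun i hi => ?_, h2, fun i hi hi1 => ?_⟩
  · have := hS hi
    unfold YS at this
    rw [Finset.mem_filter] at this
    obtain ⟨-, -, Δ', h3, h4⟩ := this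
    rw [IsD_unique hΔ h3]
    exact h4
  · have := h2 i hi
    have := h2 (i + 1) hi1
    omega

/-- a family of walks closed under the insertion of single plaquettes -/
structure FamG (o : V) where
  F : ℕ → Finset (List V)
  wk : ∀ n, ∀ l ∈ F n, l ∈ WK L Set.univ o n
  cl : ∀ n, ∀ l ∈ F n, ∀ S : Finset ℕ, (∀ i ∈ S, GT L o l n i) → (∀ i ∈ S, i + 1 ∉ S) →
    new L o l n 1 S ∈ F (n + 2 * S.card)

variable {o : V} (P : FamG L o)

/-- double counting -/
theorem dblG (hq : MQ L q) (n π r N : ℕ) (hr : 1 ≤ r) :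
    ((P.F n).filter (fun l => N ≤ (YS L q o l n π).card)).card * N.choose r ≤
      2 * (L.Δ + 1) ^ 2 * (P.F (n + 2 * r)).card := by
  set A := (P.F n).filter (fun l => N ≤ (YS L q o l n π).card) with hA
  have h1 : A.card * N.choose r ≤ (A.sigma (fun l => (YS L q o l n π).powersetCard r)).card := by
    rw [Finset.card_sigma, ← smul_eq_mul, ← Finset.sum_const]
    refine Finset.sum_le_sum fun l hl => ?_
    rw [Finset.card_powersetCard]
    rw [hA, Finset.mem_filter] at hl
    exact Nat.choose_le_choose r hl.2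
  refine h1.trans ?_
  have hch : ∀ x : (Σ _ : List V, Finset ℕ), ∃ v : V,
      x ∈ A.sigma (fun l => (YS L q o l n π).powersetCard r) → ∃ Δ, IsD q x.1 Δ ∧
        v ∈ Opt L q (new L o x.1 n 1 x.2) ∧ v ∈ x.1 ∧ ∃ u ∈ x.1, q v u = Δ ∧ L.h u < L.h v := by
    intro x
    by_cases hx : x ∈ A.sigma (fun l => (YS L q o l n π).powersetCard r)
    · rw [Finset.mem_sigma, Finset.mem_powersetCard] at hx
      obtain ⟨h2, h3, h4⟩ := hx
      rw [hA, Finset.mem_filter] at h2
      have w1 := P.wk n x.1 h2.1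
      obtain ⟨Δ, hΔ⟩ := exists_D (q := q) (WK_ne L w1)
      obtain ⟨s1, s2, s3⟩ := YS_ok L hΔ h3
      have hne : x.2.Nonempty := by
        rw [← Finset.card_pos, h4]
        exact hr
      obtain ⟨v, hv, hv2⟩ := Opt_spec L hq w1 hΔ s1 hne
      exact ⟨v, fun _ => ⟨Δ, hΔ, hv, hv2⟩⟩
    · exact ⟨o, fun h => absurd h hx⟩
  choose g hg using hch
  have h2 : (A.sigma (fun l => (YS L q o l n π).powersetCard r)).card ≤
      ((P.F (n + 2 * r)).sigma (fun l' => Opt L q l')).card := by
    refine Finset.card_le_card_of_injOn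
      (fun x : (Σ _ : List V, Finset ℕ) => (⟨new L o x.1 n 1 x.2, g x⟩ : (Σ _ : List V, V))) ?_ ?_
    · intro x hx
      obtain ⟨Δ, hΔ, h3, -⟩ := hg x hx
      rw [Finset.mem_coe, Finset.mem_sigma, Finset.mem_powersetCard] at hx
      obtain ⟨h4, h5, h6⟩ := hx
      rw [hA, Finset.mem_filter] at h4
      obtain ⟨s1, s2, s3⟩ := YS_ok L hΔ h5
      rw [Finset.mem_coe, Finset.mem_sigma]
      refine ⟨?_, h3⟩
      have := P.cl n x.1 h4.1 x.2 (fun i hi => Ge_GT L hq (P.wk n x.1 h4.1) hΔ (s1 i hi)) s3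
      rw [h6] at this
      exact this
    · intro x hx x' hx' he
      obtain ⟨Δ, hΔ, -, hv, u, hu, hvu, huv⟩ := hg x hx
      obtain ⟨Δ', hΔ', -, hv', u', hu', hvu', huv'⟩ := hg x' hx'
      rw [Finset.mem_coe, Finset.mem_sigma, Finset.mem_powersetCard] at hx hx'
      obtain ⟨h4, h5, h6⟩ := hx
      obtain ⟨h4', h5', h6'⟩ := hx'
      rw [hA, Finset.mem_filter] at h4 h4'
      have w1 := P.wk n x.1 h4.1
      have w1' := P.wk n x'.1 h4'.1
      obtain ⟨s1, s2, s3⟩ := YS_ok L hΔ h5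
      obtain ⟨s1', s2', s3'⟩ := YS_ok L hΔ' h5'
      simp only [Sigma.mk.injEq] at he
      obtain ⟨e1, e2⟩ := he
      have e2 := eq_of_heq e2
      have r1 := diam_rec L hq w1 hΔ s1 hv hu hvu huv
      have r1' := diam_rec L hq w1' hΔ' s1' hv' hu' hvu' huv'
      rw [← e1, ← e2] at r1'
      have hΔΔ : Δ = Δ' := r1.unique r1'
      subst hΔΔ
      have t1 : ∀ i ∈ x.2, GT L o x.1 n i := fun i hi => Ge_GT L hq w1 hΔ (s1 i hi)
      have t1' : ∀ i ∈ x'.2, GT L o x'.1 n i := fun i hi => Ge_GT L hq w1' hΔ' (s1' i hi)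
      have f1 := new_filter L w1 t1
      have f2 := new_filter L w1' t1'
      rw [← e1] at f2
      have hll : x.1 = x'.1 := by
        rw [← f1]
        conv_rhs => rw [← f2]
        refine List.filter_congr ?_
        intro z hz
        rw [decide_eq_decide, new_iff L hq w1 hΔ s1 hz]
        rw [e1] at hz ⊢
        rw [new_iff L hq w1' hΔ' s1' hz]
      obtain ⟨l, S⟩ := x
      obtain ⟨l', S'⟩ := x'
      simp only at *
      subst hll
      congr 1
      ext i
      constructor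
      · intro hi
        rw [mem_S_iff L w1 t1' s2' (t1 i hi) (s2 i hi), ← e1]
        exact (mem_S_iff L w1 t1 s2 (t1 i hi) (s2 i hi)).1 hi
      · intro hi
        rw [mem_S_iff L w1 t1 s2 (t1' i hi) (s2' i hi), e1]
        exact (mem_S_iff L w1 t1' s2' (t1' i hi) (s2' i hi)).1 hi
  refine h2.trans ?_
  rw [Finset.card_sigma]
  calc ∑ l' ∈ P.F (n + 2 * r), (Opt L q l').card ≤ ∑ _l' ∈ P.F (n + 2 * r), 2 * (L.Δ + 1) ^ 2 :=
        Finset.sum_le_sum fun l' _ => Opt_card L l'
    _ = _ := by rw [Finset.sum_const, smul_eq_mul, mul_comm]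

end Run7.h647.DM
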