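import Pool.Agent.Run7.h647.DM.Tail
import Pool.Agent.Run7.h738.EX.KnG

/-! # The diametral sites of lattice knots -/

set_option autoImplicit false

namespace Run7.h647.DM

open scoped Classical
open Run7.h738.EX
open KN Filter Topology

/-- the squared Euclidean distance in `ℤ³` -/
def sq3 (v u : Z3) : ℤ := (v.1 - u.1) ^ 2 + (v.2.1 - u.2.1) ^ 2 + (v.2.2 - u.2.2) ^ 2

theorem sq3_symm (v u : Z3) : sq3 v u = sq3 u v := by
  unfold sq3
  ring

theorem sq3_pos {v u : Z3} (h : v ≠ u) : 0 < sq3 v u := by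
  unfold sq3
  by_contra hc
  have h1 := sq_nonneg (v.1 - u.1)
  have h2 := sq_nonneg (v.2.1 - u.2.1)
  have h3 := sq_nonneg (v.2.2 - u.2.2)
  have e1 : (v.1 - u.1) ^ 2 = 0 := by omega
  have e2 : (v.2.1 - u.2.1) ^ 2 = 0 := by omega
  have e3 : (v.2.2 - u.2.2) ^ 2 = 0 := by omega
  rw [sq_eq_zero_iff, sub_eq_zero] at e1 e2 e3
  exact h (Prod.ext e1 (Prod.ext e2 e3))

theorem sq3_add (v u : Z3) (e : Dir) :
    sq3 (v + vec e) u = sq3 v u + 2 * (hgt e v - hgt e u) + 1 := by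
  cases e <;> simp only [sq3, hgt, vec, Prod.fst_add, Prod.snd_add] <;> ring

theorem MQ_lz (d : Dir) (a : ℕ) (ha : 6 ≤ a) : MQ (lz d a ha) sq3 :=
  ⟨sq3_symm, fun v u => sq3_add v u d⟩

theorem hgt_neg (e : Dir) (v : Z3) : hgt (neg e) v = - hgt e v := by
  unfold hgt
  rw [vec_neg]
  simp only [Prod.fst_neg, Prod.snd_neg]
  ring

theorem Dom_lz (a : ℕ) (ha : 6 ≤ a) (v u : Z3) (h : v ≠ u) :
    ∃ d : Dir, Dom (lz d a ha) sq3 v u := by
  obtain ⟨d, -, hd⟩ := Finset.exists_max_image (Finset.univ : Finset Dir)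
    (fun e => hgt e v - hgt e u) ⟨.xp, Finset.mem_univ _⟩
  have hpos : 0 < hgt d v - hgt d u := by
    by_contra hc
    have h0 : ∀ e : Dir, hgt e v - hgt e u = 0 := by
      intro e
      have h1 : hgt e v - hgt e u ≤ hgt d v - hgt d u := hd e (Finset.mem_univ _)
      have h2 : hgt (neg e) v - hgt (neg e) u ≤ hgt d v - hgt d u := hd (neg e) (Finset.mem_univ _)
      rw [hgt_neg, hgt_neg] at h2
      omega
    apply h
    have k1 := h0 .xp
    have k2 := h0 .yp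
    have k3 := h0 .zp
    simp only [hgt, vec] at k1 k2 k3
    refine Prod.ext ?_ (Prod.ext ?_ ?_)
    · linarith
    · linarith
    · linarith
  refine ⟨d, ?_, ?_⟩
  · show hgt d u < hgt d v
    omega
  · rintro w ⟨e, rfl⟩ _
    show sq3 v u + 1 ≤ sq3 (v + vec e) u + 2 * (hgt d v - hgt d u)
    rw [sq3_add]
    have h2 : hgt (neg e) v - hgt (neg e) u ≤ hgt d v - hgt d u := hd (neg e) (Finset.mem_univ _)
    rw [hgt_neg, hgt_neg] at h2
    omega

/-- the family of the polygons of a class -/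
noncomputable def kfg (a : ℕ) (ha : 6 ≤ a) {Q : List Dir → Prop} (hQ : Inv Q) (d : Dir) :
    FamG (lz d a ha) (0 : Z3) where
  F := fun n => (K Q (n + 1)).image lw
  wk := by
    intro n l hl
    rw [Finset.mem_image] at hl
    obtain ⟨w, hw, rfl⟩ := hl
    rw [mem_K] at hw
    exact lw_mem d a ha hw.2.1 hw.1
  cl := by
    intro n l hl S hS hS2
    rw [Finset.mem_image] at hl
    obtain ⟨w, hw, rfl⟩ := hl
    rw [mem_K] at hw
    have hWK := lw_mem d a ha hw.2.1 hw.1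
    obtain ⟨w', h1, h2, h3⟩ := new_step (lz d a ha) (isP_step d a ha hQ) hWK
      ⟨w, hw.2.1, hw.2.2, rfl⟩ S hS hS2
    have h4 := new_mem (lz d a ha) rfl hWK (fun v _ => Set.mem_univ _) hS hS2
    rw [Finset.mem_image]
    refine ⟨w', ?_, h3.symm⟩
    rw [mem_K]
    refine ⟨?_, h1, h2⟩
    rw [← lw_length, ← h3]
    exact h4.1

/-- the diametral sites of a polygon -/
def dmw (w : List Dir) : Set Z3 :=
  {v | v ∈ path w ∧ ∃ u ∈ path w, ∀ a ∈ path w, ∀ b ∈ path w, sq3 a b ≤ sq3 v u}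

theorem dmw_eq {w : List Dir} (hw : SAP w) : (dmw w).ncard = (Dm sq3 (lw w)).card := by
  rw [← Set.ncard_coe_finset]
  congr 1
  ext v
  unfold dmw
  rw [Finset.mem_coe, mem_Dm, mem_lw hw]
  constructor
  · rintro ⟨h1, u, hu, h2⟩
    exact ⟨h1, u, (mem_lw hw u).2 hu, fun a ha b hb =>
      h2 a ((mem_lw hw a).1 ha) b ((mem_lw hw b).1 hb)⟩
  · rintro ⟨h1, u, hu, h2⟩
    exact ⟨h1, u, (mem_lw hw u).1 hu, fun a ha b hb =>
      h2 a ((mem_lw hw a).2 ha) b ((mem_lw hw b).2 hb)⟩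

theorem dmw_le {w : List Dir} (hw : SAP w) : (dmw w).ncard ≤ w.length := by
  rw [dmw_eq hw]
  refine (Dm_len _ _).trans ?_
  rw [lw_length]

/-- the polygons with many diametral sites -/
noncomputable def mny (Q : List Dir → Prop) (X : ℝ) (n : ℕ) : ℕ :=
  ((K Q n).filter (fun w => X < ((dmw w).ncard : ℝ))).card

theorem mny_zero (Q : List Dir → Prop) (X : ℝ) : mny Q X 0 = 0 := by
  unfold mny
  rw [Finset.card_eq_zero, Finset.filter_eq_empty_iff]
  intro w hw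
  rw [mem_K] at hw
  have := hw.2.1.1
  omega

theorem mny_le (Q : List Dir → Prop) (X : ℝ) (n : ℕ) : mny Q X n ≤ KN.a Q n := by
  unfold mny KN.a
  exact Finset.card_filter_le _ _

theorem mny_anti (Q : List Dir → Prop) {X Y : ℝ} (h : X ≤ Y) (n : ℕ) : mny Q Y n ≤ mny Q X n := by
  unfold mny
  refine Finset.card_le_card ?_
  intro w hw
  rw [Finset.mem_filter] at hw ⊢
  exact ⟨hw.1, lt_of_le_of_lt h hw.2⟩

/-- the threshold -/
def thr (a r : ℕ) : ℕ := 2 + 24 * ((1 + 3 * a ^ 2) * r)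

theorem mny_tail {Q : List Dir → Prop} (hQ : Inv Q) {a : ℕ} (ha : 6 ≤ a) (n r : ℕ) (hr : 1 ≤ r) :
    mny Q (thr a r) n * (3 * a ^ 2) ^ r ≤ 24 * (a + 1) ^ 2 * KN.a Q (n + 2 * r) := by
  rcases Nat.eq_zero_or_pos n with h0 | h0
  · rw [h0, mny_zero, Nat.zero_mul]
    exact Nat.zero_le _
  obtain ⟨n, rfl⟩ : ∃ m, n = m + 1 := ⟨n - 1, by omega⟩
  have h1 := Dm_tail (fun d => lz d a ha) (fun d => MQ_lz d a ha) (fun v u h => sq3_pos h)
    (fun v => by unfold sq3; simp) (fun v u h => Dom_lz a ha v u h)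
    (fun d => kfg a ha hQ d) (F := fun n => (K Q (n + 1)).image lw) (fun i => rfl)
    (E := a) (fun i => rfl) (fun n l hl d => (kfg a ha hQ d).wk n l hl) n r hr
  have hc : Fintype.card Dir = 6 := rfl
  rw [hc] at h1
  have e1 : ((K Q (n + 2 * r + 1)).image lw).card = KN.a Q (n + 1 + 2 * r) := by
    have := kfam_card .xp a ha hQ (n + 2 * r)
    have e : n + 2 * r + 1 = n + 1 + 2 * r := by ring
    rw [← e]
    exact this
  have e2 : ((((K Q (n + 1)).image lw).filter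
      (fun l => 2 + 4 * 6 * ((1 + 3 * a ^ 2) * r) < (Dm sq3 l).card))).card =
      mny Q (thr a r) (n + 1) := by
    unfold mny
    have h : (((K Q (n + 1)).image lw).filter
        (fun l => 2 + 4 * 6 * ((1 + 3 * a ^ 2) * r) < (Dm sq3 l).card)) =
        ((K Q (n + 1)).filter (fun w => ((thr a r : ℕ) : ℝ) < ((dmw w).ncard : ℝ))).image lw := by
      ext l
      rw [Finset.mem_filter, Finset.mem_image, Finset.mem_image]
      constructor
      · rintro ⟨⟨w, hw, rfl⟩, h2⟩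
        refine ⟨w, Finset.mem_filter.2 ⟨hw, ?_⟩, rfl⟩
        rw [dmw_eq (mem_K.1 hw).2.1]
        unfold thr
        exact_mod_cast h2
      · rintro ⟨w, hw, rfl⟩
        obtain ⟨h1, h2⟩ := Finset.mem_filter.1 hw
        refine ⟨⟨w, h1, rfl⟩, ?_⟩
        rw [dmw_eq (mem_K.1 h1).2.1] at h2
        unfold thr at h2
        exact_mod_cast h2
    rw [h, Finset.card_image_of_injOn]
    intro w hw w' hw' he
    rw [Finset.mem_coe, Finset.mem_filter, mem_K] at hw hw'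
    exact lw_inj hw.1.2.1 hw'.1.2.1 he
  rw [e1, e2] at h1
  exact h1

theorem exp_le_three {x : ℝ} : Real.exp x ≤ 3 ^ ⌈x⌉₊ := by
  calc Real.exp x ≤ Real.exp (⌈x⌉₊ : ℝ) := Real.exp_le_exp.2 (Nat.le_ceil x)
    _ = Real.exp 1 ^ ⌈x⌉₊ := by rw [← Real.exp_nat_mul, mul_one]
    _ ≤ 3 ^ ⌈x⌉₊ := pow_le_pow_left₀ (Real.exp_pos _).le (by
        have := Real.exp_one_lt_d9
        linarith) _

theorem thr_le' (a c : ℕ) {x : ℝ} (hx : 0 ≤ x) :
    ((thr a (⌈x⌉₊ + c) : ℕ) : ℝ) ≤ (2 + 24 * (1 + 3 * (a : ℝ) ^ 2) * (1 + c)) * (1 + x) := by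
  unfold thr
  push_cast
  have h1 := (Nat.ceil_lt_add_one hx).le
  have h2 : (⌈x⌉₊ : ℝ) + c ≤ (1 + c) * (1 + x) := by
    have : (0 : ℝ) ≤ c * x := by positivity
    nlinarith
  have h3 : (0 : ℝ) ≤ 24 * (1 + 3 * (a : ℝ) ^ 2) := by positivity
  have h4 := mul_le_mul_of_nonneg_left h2 h3
  nlinarith

/-- the tail for the Boltzmann weights -/
theorem gen_t (Q : List Dir → Prop) (hQ : Inv Q) {x t : ℝ} (hx : 0 ≤ x)
    (ht : 1 / 6 ≤ t) (hs : Summable (fun n => (KN.a Q n : ℝ) * t ^ n)) :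
    ∑' n, (mny Q (21000 * (1 + x)) n : ℝ) * t ^ n ≤
      Real.exp (-x) * ∑' n, (KN.a Q n : ℝ) * t ^ n := by
  have ht0 : 0 < t := by linarith
  obtain ⟨r, hr⟩ : ∃ r, r = ⌈x⌉₊ + 7 := ⟨_, rfl⟩
  have hthr : ((thr 6 r : ℕ) : ℝ) ≤ 21000 * (1 + x) := by
    rw [hr]
    refine (thr_le' 6 7 hx).trans ?_
    refine mul_le_mul_of_nonneg_right ?_ (by linarith)
    norm_num
  set X : ℝ := 21000 * (1 + x) with hX
  have h36 : (1 : ℝ) ≤ (36 * t ^ 2) ^ r := by
    refine one_le_pow₀ ?_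
    have : (1 / 6 : ℝ) ^ 2 ≤ t ^ 2 := pow_le_pow_left₀ (by norm_num) ht 2
    linarith
  have hone : ∀ n, 3 ^ r * ((mny Q X n : ℝ) * t ^ n) ≤
      1176 * ((KN.a Q (n + 2 * r) : ℝ) * t ^ (n + 2 * r)) := by
    intro n
    have h1 := mny_tail hQ (le_refl 6) n r (by omega)
    have h2 : ((mny Q (thr 6 r) n * (3 * 6 ^ 2) ^ r : ℕ) : ℝ) ≤
        ((24 * (6 + 1) ^ 2 * KN.a Q (n + 2 * r) : ℕ) : ℝ) := by exact_mod_cast h1
    have h2' : (mny Q (thr 6 r) n : ℝ) * (3 * 6 ^ 2) ^ r ≤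
        24 * (6 + 1) ^ 2 * (KN.a Q (n + 2 * r) : ℝ) := by
      simpa only [Nat.cast_mul, Nat.cast_pow, Nat.cast_ofNat, Nat.cast_add, Nat.cast_one] using h2
    have h3 : (mny Q X n : ℝ) ≤ mny Q (thr 6 r) n := by exact_mod_cast mny_anti Q hthr n
    calc 3 ^ r * ((mny Q X n : ℝ) * t ^ n) ≤ (3 ^ r * ((mny Q (thr 6 r) n : ℝ) * t ^ n)) * 1 := by
          rw [mul_one]
          gcongr
      _ ≤ (3 ^ r * ((mny Q (thr 6 r) n : ℝ) * t ^ n)) * (36 * t ^ 2) ^ r :=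
          mul_le_mul_of_nonneg_left h36 (by positivity)
      _ = ((mny Q (thr 6 r) n : ℝ) * (3 * 6 ^ 2) ^ r) * t ^ (n + 2 * r) := by
          rw [mul_pow, ← pow_mul, pow_add, show (3 * (6 : ℝ) ^ 2) = 3 * 36 by norm_num, mul_pow]
          ring
      _ ≤ (24 * (6 + 1) ^ 2 * (KN.a Q (n + 2 * r) : ℝ)) * t ^ (n + 2 * r) :=
          mul_le_mul_of_nonneg_right h2' (by positivity)
      _ = _ := by ring
  have hms : Summable (fun n => (mny Q X n : ℝ) * t ^ n) := by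
    refine Summable.of_nonneg_of_le (fun n => by positivity) (fun n => ?_) hs
    refine mul_le_mul_of_nonneg_right ?_ (by positivity)
    exact_mod_cast mny_le Q X n
  have hs2 : Summable (fun n => (KN.a Q (n + 2 * r) : ℝ) * t ^ (n + 2 * r)) :=
    (summable_nat_add_iff (f := fun n => (KN.a Q n : ℝ) * t ^ n) (2 * r)).2 hs
  set Z := ∑' n, (KN.a Q n : ℝ) * t ^ n with hZ
  have hZ0 : 0 ≤ Z := tsum_nonneg fun n => by positivity
  have h1 : 3 ^ r * ∑' n, (mny Q X n : ℝ) * t ^ n ≤ 1176 * Z := by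
    rw [← tsum_mul_left]
    calc ∑' n, 3 ^ r * ((mny Q X n : ℝ) * t ^ n) ≤
          ∑' n, 1176 * ((KN.a Q (n + 2 * r) : ℝ) * t ^ (n + 2 * r)) :=
          (hms.mul_left _).tsum_le_tsum hone (hs2.mul_left _)
      _ = 1176 * ∑' n, ((KN.a Q (n + 2 * r) : ℝ) * t ^ (n + 2 * r)) := tsum_mul_left
      _ ≤ 1176 * Z := by
          refine mul_le_mul_of_nonneg_left ?_ (by norm_num)
          have h6 := hs.sum_add_tsum_nat_add (2 * r)
          have h7 : 0 ≤ ∑ n ∈ Finset.range (2 * r), (KN.a Q n : ℝ) * t ^ n :=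
            Finset.sum_nonneg fun n _ => by positivity
          linarith
  have h2 : Real.exp x * ∑' n, (mny Q X n : ℝ) * t ^ n ≤ Z := by
    have h3 : (0 : ℝ) ≤ ∑' n, (mny Q X n : ℝ) * t ^ n := tsum_nonneg fun n => by positivity
    have h4 := mul_le_mul_of_nonneg_right (exp_le_three (x := x)) h3
    rw [hr, pow_add] at h1
    have h5 : (3 : ℝ) ^ 7 = 2187 := by norm_num
    rw [h5] at h1
    nlinarith
  rw [Real.exp_neg, inv_mul_eq_div, le_div_iff₀ (Real.exp_pos x), mul_comm]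
  exact h2

/-- the tail at the lengths where the number of polygons is not too small -/
theorem gen_n (Q : List Dir → Prop) (hQ : KClass Q) (hne : ∃ w, SAP w ∧ Q w) :
    ∃ C δ : ℝ, 1 < C ∧ 0 < δ ∧ δ < 1 ∧ ∀ n : ℕ, ((1 - δ) * gr Q) ^ n ≤ (KN.a Q n : ℝ) →
      ∀ x : ℝ, 0 ≤ x → (mny Q (C * (1 + x)) n : ℝ) ≤ Real.exp (-x) * (KN.a Q n : ℝ) := by
  obtain ⟨δ, G, k0, hδ0, hδ1, hG⟩ := growth Q hQ hne
  obtain ⟨a, haG⟩ : ∃ a, a = G + 6 := ⟨_, rfl⟩
  have ha : 6 ≤ a := by omega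
  obtain ⟨c0, hc0⟩ : ∃ c0, c0 = 24 * (a + 1) ^ 2 := ⟨_, rfl⟩
  have hc3 : c0 ≤ 3 ^ c0 := (Nat.lt_pow_self (by norm_num)).le
  have hc1 : 1 ≤ c0 := by
    rw [hc0]
    have : 0 < (a + 1) ^ 2 := by positivity
    omega
  obtain ⟨C1, hC1⟩ : ∃ C1 : ℝ, C1 = 2 + 24 * (1 + 3 * (a : ℝ) ^ 2) * (1 + c0) := ⟨_, rfl⟩
  have hC1p : 2 ≤ C1 := by
    have : (0 : ℝ) ≤ 24 * (1 + 3 * (a : ℝ) ^ 2) * (1 + c0) := by positivity
    linarith
  have hk00 : (0 : ℝ) ≤ k0 := Nat.cast_nonneg _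
  refine ⟨C1 + 2 * k0, δ, by linarith, hδ0, hδ1, ?_⟩
  intro n htyp x hx
  have hCx : C1 + 2 * k0 ≤ (C1 + 2 * k0) * (1 + x) := by nlinarith
  by_cases hn : n < 2 * k0
  · have h0 : mny Q ((C1 + 2 * k0) * (1 + x)) n = 0 := by
      unfold mny
      rw [Finset.card_eq_zero, Finset.filter_eq_empty_iff]
      intro w hw
      rw [mem_K] at hw
      push Not
      have h1 := dmw_le hw.2.1
      rw [hw.1] at h1
      have h2 : ((dmw w).ncard : ℝ) ≤ 2 * k0 := by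
        exact_mod_cast h1.trans hn.le
      linarith
    rw [h0]
    simp only [Nat.cast_zero]
    positivity
  rcases Nat.even_or_odd' n with ⟨k, rfl | rfl⟩
  swap
  · have h0 : KN.a Q (2 * k + 1) = 0 := a_odd _ _ (by omega)
    have h1 := mny_le Q ((C1 + 2 * k0) * (1 + x)) (2 * k + 1)
    have h2 : mny Q ((C1 + 2 * k0) * (1 + x)) (2 * k + 1) = 0 := by omega
    rw [h0, h2]
    simp
  have hinv := GEN.inv_of Q hQ
  obtain ⟨r, hr⟩ : ∃ r, r = ⌈x⌉₊ + c0 := ⟨_, rfl⟩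
  have h1 := mny_tail hinv ha (2 * k) r (by omega)
  have h2 := hG k (by omega) htyp r
  have e : 2 * k + 2 * r = 2 * (k + r) := by ring
  rw [e] at h1
  set m := mny Q (thr a r) (2 * k) with hm
  rw [← hc0] at h1
  have h3 : m * (3 * a ^ 2) ^ r ≤ c0 * (a ^ (2 * r) * KN.a Q (2 * k)) := by
    refine h1.trans (Nat.mul_le_mul_left _ (h2.trans (Nat.mul_le_mul_right _ ?_)))
    calc G ^ r ≤ a ^ r := Nat.pow_le_pow_left (by omega) r
      _ ≤ a ^ (2 * r) := Nat.pow_le_pow_right (by omega) (by omega)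
  have h4 : 3 ^ r * m ≤ c0 * KN.a Q (2 * k) := by
    have hpos : 0 < a ^ (2 * r) := Nat.pow_pos (by omega)
    refine Nat.le_of_mul_le_mul_left ?_ hpos
    calc a ^ (2 * r) * (3 ^ r * m) = m * (3 * a ^ 2) ^ r := by
          rw [mul_pow, ← pow_mul]
          ring
      _ ≤ c0 * (a ^ (2 * r) * KN.a Q (2 * k)) := h3
      _ = _ := by ring
  have h5 : 3 ^ ⌈x⌉₊ * m ≤ KN.a Q (2 * k) := by
    have h6 := h4.trans (Nat.mul_le_mul_right _ hc3)
    rw [hr, pow_add, mul_comm (3 ^ ⌈x⌉₊), mul_assoc] at h6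
    exact Nat.le_of_mul_le_mul_left h6 (by positivity)
  have h6 : (3 : ℝ) ^ ⌈x⌉₊ * m ≤ KN.a Q (2 * k) := by exact_mod_cast h5
  have hthr : ((thr a r : ℕ) : ℝ) ≤ (C1 + 2 * k0) * (1 + x) := by
    rw [hr]
    refine (thr_le' a c0 hx).trans ?_
    refine mul_le_mul_of_nonneg_right ?_ (by linarith)
    rw [hC1]
    linarith
  have h7 : (mny Q ((C1 + 2 * k0) * (1 + x)) (2 * k) : ℝ) ≤ m := by
    exact_mod_cast mny_anti Q hthr (2 * k)
  rw [Real.exp_neg, inv_mul_eq_div, le_div_iff₀ (Real.exp_pos x), mul_comm]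
  calc Real.exp x * (mny Q ((C1 + 2 * k0) * (1 + x)) (2 * k) : ℝ) ≤ 3 ^ ⌈x⌉₊ * m :=
        mul_le_mul exp_le_three h7 (Nat.cast_nonneg _) (by positivity)
    _ ≤ _ := h6

/-- the tail at all lengths, for classes closed under connected sums -/
theorem gen_all (Q : List Dir → Prop) (hQ : KClass Q) (hne : ∃ w, SAP w ∧ Q w) (hc : CSum Q) :
    ∃ C : ℝ, 1 < C ∧ ∀ n : ℕ, ∀ x : ℝ, 0 ≤ x →
      (mny Q (C * (1 + x)) n : ℝ) ≤ Real.exp (-x) * (KN.a Q n : ℝ) := by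
  obtain ⟨C, δ, hC, hδ0, hδ1, h⟩ := gen_n Q hQ hne
  obtain ⟨g1, -, g2⟩ := gr_bounds Q hQ hne
  have hlim := (class_sum Q hQ hne hc).1
  have hev : ∀ᶠ j : ℕ in atTop, ((1 - δ) * gr Q) ^ (2 * j) ≤ (KN.a Q (2 * j) : ℝ) := by
    have h1 : (1 - δ) * gr Q < gr Q := by nlinarith
    filter_upwards [hlim.eventually_const_lt h1, eventually_gt_atTop 0] with j h2 hj
    have hj' : (0 : ℝ) < j := by exact_mod_cast hj
    calc _ ≤ ((pq Q (2 * j)) ^ (1 / (2 * j : ℝ))) ^ (2 * j) :=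
          pow_le_pow_left₀ (mul_nonneg (by linarith) (by linarith)) h2.le _
      _ = pq Q (2 * j) := by
          rw [← Real.rpow_natCast, ← Real.rpow_mul (GEN.pn_nonneg _ _)]
          push_cast
          rw [one_div_mul_cancel (by positivity), Real.rpow_one]
      _ ≤ _ := GEN.pn_le_a Q j hj
  obtain ⟨k0, hk0⟩ := eventually_atTop.1 hev
  have hk00 : (0 : ℝ) ≤ k0 := Nat.cast_nonneg _
  refine ⟨C + 2 * k0, by linarith, ?_⟩
  intro n x hx
  have hCx : C + 2 * k0 ≤ (C + 2 * k0) * (1 + x) := by nlinarith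
  by_cases hn : n < 2 * k0
  · have h0 : mny Q ((C + 2 * k0) * (1 + x)) n = 0 := by
      unfold mny
      rw [Finset.card_eq_zero, Finset.filter_eq_empty_iff]
      intro w hw
      rw [mem_K] at hw
      push Not
      have h1 := dmw_le hw.2.1
      rw [hw.1] at h1
      have h2 : ((dmw w).ncard : ℝ) ≤ 2 * k0 := by
        exact_mod_cast h1.trans hn.le
      linarith
    rw [h0]
    simp only [Nat.cast_zero]
    positivity
  rcases Nat.even_or_odd' n with ⟨k, rfl | rfl⟩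
  swap
  · have h0 : KN.a Q (2 * k + 1) = 0 := a_odd _ _ (by omega)
    have h1 := mny_le Q ((C + 2 * k0) * (1 + x)) (2 * k + 1)
    have h2 : mny Q ((C + 2 * k0) * (1 + x)) (2 * k + 1) = 0 := by omega
    rw [h0, h2]
    simp
  refine le_trans ?_ (h (2 * k) (hk0 k (by omega)) x hx)
  refine Nat.cast_le.2 (mny_anti Q ?_ _)
  refine mul_le_mul_of_nonneg_right ?_ (by linarith)
  linarith

end Run7.h647.DM
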