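import Pool.Agent.Run7.h647.DM.Zd
import Pool.Agent.Run7.h738.EX.Pairs

/-! # Pairs of walks with a diametral starting point -/

set_option autoImplicit false

namespace Run7.h647.DM

open scoped Classical
open Run7.h738.EX

section
variable {V : Type} [AddCommGroup V] (L : Lay V)
  (hadj : ∀ u v w : V, L.adj (v + u) (w + u) ↔ L.adj v w)

include hadj in
/-- a walk split at one of its sites -/
theorem split_pair {n : ℕ} {l : List V} (hl : l ∈ WK L Set.univ (0 : V) n) {v : V} (hv : v ∈ l) :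
    ∃ p : ℕ × List V × List V, p.1 ≤ n ∧ p.2.1 ∈ WK L Set.univ 0 p.1 ∧
      p.2.2 ∈ WK L Set.univ 0 (n - p.1) ∧ (∀ u ∈ p.2.1, u ∈ p.2.2 → u = 0) ∧ glue p = l ∧
      ∀ u, (u ∈ p.2.1 ∨ u ∈ p.2.2) → u + v ∈ l := by
  have hadj' : ∀ z v w : V, L.adj v w → L.adj (v - z) (w - z) := by
    intro z v w h
    rw [← hadj z, sub_add_cancel, sub_add_cancel]
    exact h
  obtain ⟨A, B, rfl⟩ := List.append_of_mem hv
  obtain ⟨l1, l2, l3, l4, -⟩ := hl
  rw [List.length_append, List.length_cons] at l1
  rw [List.isChain_split] at l3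
  have hlast : ((v :: A.reverse).map (fun u => u - v)).getLastD 0 = 0 - v := by
    cases h5 : A with
    | nil =>
      rw [h5] at l2
      simp only [List.nil_append, List.head?_cons, Option.some.injEq] at l2
      simp [l2]
    | cons u t =>
      rw [h5] at l2
      simp only [List.cons_append, List.head?_cons, Option.some.injEq] at l2
      rw [List.getLastD_eq_getLast?, List.getLast?_map, List.getLast?_cons,
        List.getLast?_reverse]
      simp [l2]
  refine ⟨(A.length, (v :: A.reverse).map (fun u => u - v), (v :: B).map (fun u => u - v)),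
    by simp only; omega, ⟨?_, ?_, ?_, ?_, fun _ _ => Set.mem_univ _⟩,
    ⟨?_, ?_, ?_, ?_, fun _ _ => Set.mem_univ _⟩, ?_, ?_, ?_⟩
  · simp
  · simp
  · simp only
    rw [List.isChain_map]
    have h6 : (v :: A.reverse) = (A ++ [v]).reverse := by simp
    rw [h6]
    have h7 : (A ++ [v]).reverse.IsChain L.adj := by
      rw [List.isChain_reverse]
      exact l3.1.imp fun _ _ h => L.symm _ _ h
    exact h7.imp fun _ _ h => hadj' v _ _ h
  · refine List.Nodup.map (fun u w h => sub_left_injective h) ?_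
    have h6 : (v :: A.reverse) = (A ++ [v]).reverse := by simp
    rw [h6, List.nodup_reverse]
    have h7 : A ++ v :: B = (A ++ [v]) ++ B := by simp
    rw [h7, List.nodup_append] at l4
    exact l4.1
  · simp only [List.length_map, List.length_cons]
    omega
  · simp
  · simp only
    rw [List.isChain_map]
    exact l3.2.imp fun _ _ h => hadj' v _ _ h
  · refine List.Nodup.map (fun u w h => sub_left_injective h) ?_
    rw [List.nodup_append] at l4
    exact l4.2.1
  · intro u hu hu2
    simp only [List.mem_map, List.mem_cons, List.mem_reverse] at hu hu2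
    obtain ⟨w, hw, rfl⟩ := hu
    obtain ⟨w2, hw2, h8⟩ := hu2
    have h9 : w2 = w := sub_left_injective h8
    rw [h9] at hw2
    rcases hw with rfl | hw
    · simp
    · exfalso
      rw [List.nodup_append] at l4
      exact l4.2.2 w hw w (by rcases hw2 with h | h <;> simp [h]) rfl
  · unfold glue
    simp only
    rw [hlast]
    simp only [List.map_cons, List.tail_cons, sub_self]
    have h10 : ((A.reverse.map (fun u => u - v)).reverse ++ (0 : V) :: B.map (fun u => u - v)) =
        (A ++ v :: B).map (fun u => u - v) := by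
      simp [List.map_reverse]
    rw [h10, List.map_map]
    conv_rhs => rw [← List.map_id (A ++ v :: B)]
    refine List.map_congr_left ?_
    intro u _
    simp
  · intro u hu
    simp only [List.mem_map, List.mem_cons, List.mem_reverse] at hu
    rcases hu with ⟨w, hw, rfl⟩ | ⟨w, hw, rfl⟩
    · rw [sub_add_cancel]
      rcases hw with h | h <;> simp [h]
    · rw [sub_add_cancel]
      rcases hw with h | h <;> simp [h]

/-- the sites of the walk of a pair -/
theorem mem_glue {k m : ℕ} {p : ℕ × List V × List V} {D D' : Set V} (h1 : p.2.1 ∈ WK L D 0 k)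
    (h2 : p.2.2 ∈ WK L D' 0 m) (x : V) :
    x ∈ glue p ↔ ∃ u, (u ∈ p.2.1 ∨ u ∈ p.2.2) ∧ x = u - p.2.1.getLastD 0 := by
  obtain ⟨ea, la⟩ := WK_cons L h1
  obtain ⟨eb, lb⟩ := WK_cons L h2
  unfold glue
  rw [List.mem_map]
  constructor
  · rintro ⟨u, hu, rfl⟩
    refine ⟨u, ?_, rfl⟩
    rw [List.mem_append, List.mem_reverse] at hu
    rcases hu with hu | hu
    · left
      rw [ea]
      exact List.mem_cons_of_mem _ hu
    · right
      rw [eb]
      exact hu
  · rintro ⟨u, hu, rfl⟩
    refine ⟨u, ?_, rfl⟩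
    rw [List.mem_append, List.mem_reverse]
    rcases hu with hu | hu
    · rw [ea, List.mem_cons] at hu
      rcases hu with rfl | hu
      · right
        exact List.mem_cons_self
      · exact Or.inl hu
    · right
      rw [← eb]
      exact hu

end

variable {d : ℕ}

/-- the pairs of walks from `0`, with `n` steps together, which meet at `0` only, such that `0` is
an end of a diameter of their union -/
def PD (j : Fin d × Bool) (n : ℕ) : Set (ℕ × List (Fin d → ℤ) × List (Fin d → ℤ)) :=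
  {p | p.1 ≤ n ∧ p.2.1 ∈ WK (Ls j) Set.univ 0 p.1 ∧ p.2.2 ∈ WK (Ls j) Set.univ 0 (n - p.1) ∧
    (∀ v ∈ p.2.1, v ∈ p.2.2 → v = 0) ∧ ∃ u, (u ∈ p.2.1 ∨ u ∈ p.2.2) ∧
      ∀ a b, (a ∈ p.2.1 ∨ a ∈ p.2.2) → (b ∈ p.2.1 ∨ b ∈ p.2.2) → sqd a b ≤ sqd 0 u}

theorem adj_Ls (j : Fin d × Bool) (u v w : Fin d → ℤ) :
    (Ls j).adj (v + u) (w + u) ↔ (Ls j).adj v w := by
  show (∑ i, |(w + u) i - (v + u) i| = 1) ↔ (∑ i, |w i - v i| = 1)
  simp only [Pi.add_apply, add_sub_add_right_eq_sub]

theorem h_Ls (j : Fin d × Bool) (u v : Fin d → ℤ) : (Ls j).h (v + u) = (Ls j).h v + (Ls j).h u := by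
  show sg j.2 * (v + u) j.1 = sg j.2 * v j.1 + sg j.2 * u j.1
  rw [Pi.add_apply]
  ring

theorem h_zero (j : Fin d × Bool) : (Ls j).h 0 = 0 := by
  show sg j.2 * (0 : Fin d → ℤ) j.1 = 0
  simp

theorem h_step (j : Fin d × Bool) {v w : Fin d → ℤ} (h : (Ls j).adj v w) :
    (Ls j).h w ≤ (Ls j).h v + 1 := by
  rcases (Ls j).hor v w h with h1 | h1 | h1
  · omega
  · rw [h1, (Ls j).h_up]
  · rw [h1, (Ls j).h_up]
    omega

theorem h_le (j : Fin d × Bool) {k : ℕ} {a : List (Fin d → ℤ)}
    (ha : a ∈ WK (Ls j) Set.univ 0 k) {v : Fin d → ℤ} (hv : v ∈ a) : (Ls j).h v ≤ k := by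
  obtain ⟨i, hi, rfl⟩ := mem_site (Ls j) ha hv
  have h1 : ∀ i ≤ k, (Ls j).h (site 0 a i) ≤ i := by
    intro i
    induction i with
    | zero =>
      intro _
      rw [site_zero (Ls j) ha, h_zero]
      exact le_refl _
    | succ i ih =>
      intro hi
      have h2 := h_step j (site_adj (Ls j) ha (show i < k by omega))
      have h3 := ih (by omega)
      push_cast
      omega
  have := h1 i hi
  have : (i : ℤ) ≤ k := by exact_mod_cast hi
  omega

theorem PD_sub (j : Fin d × Bool) (n : ℕ) : PD j n ⊆ PR (Ls j) n n := by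
  rintro p ⟨h1, h2, h3, h4, -⟩
  refine ⟨h1, ⟨h2.1, h2.2.1, h2.2.2.1, h2.2.2.2.1, fun v hv => ?_⟩,
    ⟨h3.1, h3.2.1, h3.2.2.1, h3.2.2.2.1, fun v hv => ?_⟩, h4⟩
  · have := h_le j h2 hv
    show (Ls j).h v ≤ n
    have : (p.1 : ℤ) ≤ n := by exact_mod_cast h1
    omega
  · have := h_le j h3 hv
    show (Ls j).h v ≤ n
    push_cast [h1] at this
    omega

theorem sqd_sub (v u z : Fin d → ℤ) : sqd (v - z) (u - z) = sqd v u := by
  unfold sqd
  refine Finset.sum_congr rfl fun k _ => ?_
  simp only [Pi.sub_apply, sub_sub_sub_cancel_right]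

theorem PD_le (j : Fin d × Bool) (n : ℕ) :
    (PD j n).ncard ≤ ∑ l ∈ WF (Ls j) Set.univ 0 n, (Dm sqd l).card := by
  rw [← Finset.card_sigma, ← Set.ncard_coe_finset]
  refine Set.ncard_le_ncard_of_injOn
    (fun p : ℕ × List (Fin d → ℤ) × List (Fin d → ℤ) =>
      (⟨glue p, - p.2.1.getLastD 0⟩ : Σ _ : List (Fin d → ℤ), (Fin d → ℤ))) ?_
    ((glue_injOn (Ls j) (adj_Ls j) (h_Ls j) n n).mono (PD_sub j n)) (Finset.finite_toSet _)
  intro p hp
  have hp' := hp
  obtain ⟨h1, h2, h3, h4, u, hu, h5⟩ := hp'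
  rw [Finset.mem_coe, Finset.mem_sigma, mem_WF]
  refine ⟨glue_mem (Ls j) (adj_Ls j) (PD_sub j n hp), ?_⟩
  simp only
  rw [mem_Dm]
  set z := p.2.1.getLastD 0 with hz
  have h0 : (0 : Fin d → ℤ) ∈ p.2.1 := by
    have := (WK_cons (Ls j) h2).1
    rw [this]
    exact List.mem_cons_self
  refine ⟨?_, u - z, ?_, ?_⟩
  · rw [mem_glue (Ls j) h2 h3]
    exact ⟨0, Or.inl h0, by rw [zero_sub]⟩
  · rw [mem_glue (Ls j) h2 h3]
    exact ⟨u, hu, rfl⟩
  · intro a ha b hb
    rw [mem_glue (Ls j) h2 h3] at ha hb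
    obtain ⟨a', ha', rfl⟩ := ha
    obtain ⟨b', hb', rfl⟩ := hb
    rw [← hz, sqd_sub, ← zero_sub z, sqd_sub]
    exact h5 a' b' ha' hb'

theorem PD_ge (j : Fin d × Bool) (n : ℕ) :
    (WF (Ls j) Set.univ (0 : Fin d → ℤ) n).card ≤ (PD j n).ncard := by
  rw [← Set.ncard_coe_finset]
  have key : ∀ l ∈ WK (Ls j) Set.univ (0 : Fin d → ℤ) n, ∃ p ∈ PD j n, glue p = l := by
    intro l hl
    obtain ⟨v, hv⟩ := Dm_ne (q := sqd) (WK_ne (Ls j) hl)
    rw [mem_Dm] at hv
    obtain ⟨hvl, u, hu, hmax⟩ := hv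
    obtain ⟨p, p1, p2, p3, p4, p5, p6⟩ := split_pair (Ls j) (adj_Ls j) hl hvl
    refine ⟨p, ⟨p1, p2, p3, p4, u - v, ?_, ?_⟩, p5⟩
    · -- `u - v` is a site of the pair
      rw [← p5, mem_glue (Ls j) p2 p3] at hu hvl
      obtain ⟨u', hu', rfl⟩ := hu
      -- the shift
      have hshift : ∀ w, (w ∈ p.2.1 ∨ w ∈ p.2.2) → w + v ∈ l := p6
      -- the shift maps the sites of the pair onto the sites of `l`
      have hfin : ((p.2.1.toFinset ∪ p.2.2.toFinset).image (fun w => w + v)) = l.toFinset := by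
        refine Finset.eq_of_subset_of_card_le ?_ ?_
        · intro x hx
          rw [Finset.mem_image] at hx
          obtain ⟨w, hw, rfl⟩ := hx
          rw [Finset.mem_union, List.mem_toFinset, List.mem_toFinset] at hw
          exact List.mem_toFinset.2 (hshift w hw)
        · rw [Finset.card_image_of_injective _ (add_left_injective v)]
          have e : l.toFinset = (p.2.1.toFinset ∪ p.2.2.toFinset).image
              (fun w => w - p.2.1.getLastD 0) := by
            ext x
            rw [List.mem_toFinset, Finset.mem_image, ← p5, mem_glue (Ls j) p2 p3]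
            constructor
            · rintro ⟨w, hw, rfl⟩
              exact ⟨w, by rw [Finset.mem_union, List.mem_toFinset, List.mem_toFinset]; exact hw, rfl⟩
            · rintro ⟨w, hw, rfl⟩
              rw [Finset.mem_union, List.mem_toFinset, List.mem_toFinset] at hw
              exact ⟨w, hw, rfl⟩
          rw [e, Finset.card_image_of_injective _ (sub_left_injective)]
      have hx : (u' - p.2.1.getLastD 0) ∈ l := by
        rw [← p5, mem_glue (Ls j) p2 p3]
        exact ⟨u', hu', rfl⟩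
      rw [← List.mem_toFinset, ← hfin, Finset.mem_image] at hx
      obtain ⟨w, hw, hw2⟩ := hx
      rw [Finset.mem_union, List.mem_toFinset, List.mem_toFinset] at hw
      rw [← hw2, add_sub_cancel_right]
      exact hw
    · intro a b ha hb
      have h1 := hmax _ (p6 a ha) _ (p6 b hb)
      have e1 : sqd (a + v) (b + v) = sqd a b := by
        rw [← sqd_sub (a + v) (b + v) v, add_sub_cancel_right, add_sub_cancel_right]
      have e2 : sqd 0 (u - v) = sqd v u := by
        rw [← sqd_sub v u v, sub_self]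
      rw [e1] at h1
      rw [e2]
      exact h1
  choose! f hf using key
  refine Set.ncard_le_ncard_of_injOn f ?_ ?_ ((PR_finite (Ls j) n n).subset (PD_sub j n))
  · intro l hl
    rw [Finset.mem_coe, mem_WF] at hl
    exact (hf l hl).1
  · intro l hl l' hl' he
    rw [Finset.mem_coe, mem_WF] at hl hl'
    rw [← (hf l hl).2, ← (hf l' hl').2, he]

end Run7.h647.DM
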