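import Pool.Agent.Run7.h647.DM.Pairs

/-! # Bumps at the sites of maximal distance from a given point -/

set_option autoImplicit false

namespace Run7.h647.DM

open scoped Classical
open Run7.h738.EX

section core
variable {V : Type} (L : Lay V)

/-- good edges: one end is at the maximal distance from `z`, and far above `z` -/
def GeZ (q : V → V → ℤ) (z o : V) (l : List V) (n i : ℕ) : Prop :=
  i < n ∧ L.h (site o l i) = L.h (site o l (i + 1)) ∧
    ∃ v, (v = site o l i ∨ v = site o l (i + 1)) ∧ (∀ a ∈ l, q a z ≤ q v z) ∧ Dom L q v z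

variable {q : V → V → ℤ} {D : Set V} {z o : V} {n : ℕ} {l : List V}

/-- the two ends of a good edge are far from `z`, after a shift -/
theorem GeZ_far (hq : MQ L q) (hl : l ∈ WK L D o n) {i : ℕ} (h : GeZ L q z o l n i) {x : V}
    (hx : x = site o l i ∨ x = site o l (i + 1)) {t : ℕ} (ht : 1 ≤ t) {a : V} (ha : a ∈ l) :
    q a z < q (L.up^[t] x) z := by
  obtain ⟨h1, h2, v, hv, h3, h4, h5⟩ := h
  have hadj : L.adj (site o l i) (site o l (i + 1)) := site_adj L hl h1
  have hxv : x = v ∨ (L.adj v x ∧ L.h x = L.h v) := by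
    rcases hx with rfl | rfl <;> rcases hv with rfl | rfl
    · exact Or.inl rfl
    · exact Or.inr ⟨L.symm _ _ hadj, h2⟩
    · exact Or.inr ⟨hadj, h2.symm⟩
    · exact Or.inl rfl
  refine lt_of_le_of_lt (h3 a ha) ?_
  rw [q_it L hq]
  have ht' : (1 : ℤ) ≤ t := by exact_mod_cast ht
  rcases hxv with rfl | ⟨h6, h7⟩
  · have : 0 < (t : ℤ) * (L.h x - L.h z) := mul_pos (by omega) (by omega)
    nlinarith
  · have h8 := h5 x h6 h7
    rw [h7]
    have h9 : 0 ≤ ((t : ℤ) - 1) * (L.h v - L.h z) := mul_nonneg (by omega) (by omega)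
    nlinarith

theorem GeZ_GT (hq : MQ L q) (hl : l ∈ WK L D o n) {i : ℕ} (h : GeZ L q z o l n i) :
    GT L o l n i := by
  refine ⟨h.1, h.2.1, ?_, ?_⟩
  · intro t ht hmem
    exact lt_irrefl _ (GeZ_far L hq hl h (Or.inl rfl) ht hmem)
  · intro t ht hmem
    exact lt_irrefl _ (GeZ_far L hq hl h (Or.inr rfl) ht hmem)

/-- the new sites are recognised -/
theorem newZ_iff (hq : MQ L q) (hl : l ∈ WK L D o n) {S : Finset ℕ}
    (hS : ∀ i ∈ S, GeZ L q z o l n i) {v : V} (hvl : v ∈ l) (hv : ∀ a ∈ l, q a z ≤ q v z) {w : V}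
    (hw : w ∈ new L o l n 1 S) : w ∈ l ↔ q w z ≤ q v z := by
  have hS' : ∀ i ∈ S, GT L o l n i := fun i hi => GeZ_GT L hq hl (hS i hi)
  constructor
  · intro h
    exact hv w h
  · intro h
    rcases (mem_new L hl hS').1 hw with h3 | ⟨i, hi, x, hx, rfl⟩
    · exact h3
    · exfalso
      have h1 := GeZ_far L hq hl (hS i hi) hx (le_refl 1) hvl
      have h2 : L.up^[1] x = L.up x := rfl
      rw [h2] at h1
      omega

/-- the sites close to a site of the new walk which is at the maximal distance from `z` -/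
noncomputable def OptZ (q : V → V → ℤ) (z : V) (l : List V) : Finset V :=
  if h : ∃ x : V, x ∈ l ∧ ∀ a ∈ l, q a z ≤ q x z then Ball L h.choose 2 else ∅

theorem OptZ_card (l : List V) : (OptZ L q z l).card ≤ (L.Δ + 1) ^ 2 := by
  unfold OptZ
  split_ifs with h
  · exact Ball_card L h.choose 2
  · simp

theorem OptZ_spec (hq : MQ L q) (hl : l ∈ WK L D o n) {S : Finset ℕ}
    (hS : ∀ i ∈ S, GeZ L q z o l n i) (hne : S.Nonempty) :
    ∃ v ∈ OptZ L q z (new L o l n 1 S), v ∈ l ∧ ∀ a ∈ l, q a z ≤ q v z := by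
  have hS' : ∀ i ∈ S, GT L o l n i := fun i hi => GeZ_GT L hq hl (hS i hi)
  have hlne := WK_ne L hl
  obtain ⟨a0, ha0⟩ := List.exists_mem_of_ne_nil l hlne
  have hex : ∃ x : V, x ∈ new L o l n 1 S ∧ ∀ a ∈ new L o l n 1 S, q a z ≤ q x z := by
    obtain ⟨x, hx, h⟩ := Finset.exists_max_image (new L o l n 1 S).toFinset (fun x => q x z)
      ⟨a0, List.mem_toFinset.2 ((mem_new L hl hS').2 (Or.inl ha0))⟩
    exact ⟨x, List.mem_toFinset.1 hx, fun a ha => h a (List.mem_toFinset.2 ha)⟩
  have hOpt : OptZ L q z (new L o l n 1 S) = Ball L hex.choose 2 := by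
    unfold OptZ
    rw [dif_pos hex]
  obtain ⟨c1, c2⟩ := hex.choose_spec
  set x := hex.choose with hx
  have hxl : x ∉ l := by
    intro h
    obtain ⟨i, hi⟩ := hne
    have h1 := GeZ_far L hq hl (hS i hi) (x := site o l i) (Or.inl rfl) (le_refl 1) h
    have h2 := c2 (L.up (site o l i)) ((mem_new L hl hS').2 (Or.inr ⟨i, hi, _, Or.inl rfl, rfl⟩))
    have h3 : L.up^[1] (site o l i) = L.up (site o l i) := rfl
    rw [h3] at h1
    omega
  rcases (mem_new L hl hS').1 c1 with h4 | ⟨i, hi, y, hy, hxy⟩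
  · exact absurd h4 hxl
  · obtain ⟨g1, g2, v, hv, g3, g4⟩ := hS i hi
    have hb0 : x ∈ Ball L x 0 := by simp [Ball]
    have hb1 : y ∈ Ball L x 1 := Ball_adj L hb0 (by rw [hxy]; exact L.symm _ _ (L.adj_up y))
    have hadj : L.adj (site o l i) (site o l (i + 1)) := site_adj L hl g1
    refine ⟨v, ?_, ?_, g3⟩
    · rw [hOpt]
      have h5 : v = y ∨ L.adj y v := by
        rcases hv with rfl | rfl <;> rcases hy with rfl | rfl
        · exact Or.inl rfl
        · exact Or.inr (L.symm _ _ hadj)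
        · exact Or.inr hadj
        · exact Or.inl rfl
      rcases h5 with rfl | h5
      · exact Ball_mono L _ (by norm_num) hb1
      · exact Ball_adj L hb1 h5
    · rcases hv with rfl | rfl
      · exact site_mem L hl (by omega)
      · exact site_mem L hl (by omega)

/-- the good edges of a class -/
noncomputable def YZ (q : V → V → ℤ) (z o : V) (l : List V) (n π : ℕ) : Finset ℕ :=
  (Finset.range n).filter (fun i => i % 2 = π ∧ GeZ L q z o l n i)

theorem YZ_ok {π : ℕ} {S : Finset ℕ} (hS : S ⊆ YZ L q z o l n π) :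
    (∀ i ∈ S, GeZ L q z o l n i) ∧ (∀ i ∈ S, i % 2 = π) ∧ ∀ i ∈ S, i + 1 ∉ S := by
  have h1 : ∀ i ∈ S, i % 2 = π ∧ GeZ L q z o l n i := by
    intro i hi
    have := hS hi
    unfold YZ at this
    rw [Finset.mem_filter] at this
    exact this.2
  refine ⟨fun i hi => (h1 i hi).2, fun i hi => (h1 i hi).1, fun i hi hi1 => ?_⟩
  have := (h1 i hi).1
  have := (h1 (i + 1) hi1).1
  omega

variable (P : FamG L o)

/-- double counting -/
theorem dblZ (hq : MQ L q) (z : V) (n π r N : ℕ) (hr : 1 ≤ r) :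
    ((P.F n).filter (fun l => N ≤ (YZ L q z o l n π).card)).card * N.choose r ≤
      (L.Δ + 1) ^ 2 * (P.F (n + 2 * r)).card := by
  set A := (P.F n).filter (fun l => N ≤ (YZ L q z o l n π).card) with hA
  have h1 : A.card * N.choose r ≤
      (A.sigma (fun l => (YZ L q z o l n π).powersetCard r)).card := by
    rw [Finset.card_sigma, ← smul_eq_mul, ← Finset.sum_const]
    refine Finset.sum_le_sum fun l hl => ?_
    rw [Finset.card_powersetCard]
    rw [hA, Finset.mem_filter] at hl
    exact Nat.choose_le_choose r hl.2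
  refine h1.trans ?_
  have hch : ∀ x : (Σ _ : List V, Finset ℕ), ∃ v : V,
      x ∈ A.sigma (fun l => (YZ L q z o l n π).powersetCard r) →
        v ∈ OptZ L q z (new L o x.1 n 1 x.2) ∧ v ∈ x.1 ∧ ∀ a ∈ x.1, q a z ≤ q v z := by
    intro x
    by_cases hx : x ∈ A.sigma (fun l => (YZ L q z o l n π).powersetCard r)
    · rw [Finset.mem_sigma, Finset.mem_powersetCard] at hx
      obtain ⟨h2, h3, h4⟩ := hx
      rw [hA, Finset.mem_filter] at h2
      have w1 := P.wk n x.1 h2.1
      obtain ⟨s1, s2, s3⟩ := YZ_ok L h3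
      have hne : x.2.Nonempty := by
        rw [← Finset.card_pos, h4]
        exact hr
      obtain ⟨v, hv, hv2⟩ := OptZ_spec L hq w1 s1 hne
      exact ⟨v, fun _ => ⟨hv, hv2⟩⟩
    · exact ⟨o, fun h => absurd h hx⟩
  choose g hg using hch
  have h2 : (A.sigma (fun l => (YZ L q z o l n π).powersetCard r)).card ≤
      ((P.F (n + 2 * r)).sigma (fun l' => OptZ L q z l')).card := by
    refine Finset.card_le_card_of_injOn
      (fun x : (Σ _ : List V, Finset ℕ) => (⟨new L o x.1 n 1 x.2, g x⟩ : (Σ _ : List V, V))) ?_ ?_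
    · intro x hx
      obtain ⟨h3, -⟩ := hg x hx
      rw [Finset.mem_coe, Finset.mem_sigma, Finset.mem_powersetCard] at hx
      obtain ⟨h4, h5, h6⟩ := hx
      rw [hA, Finset.mem_filter] at h4
      obtain ⟨s1, s2, s3⟩ := YZ_ok L h5
      rw [Finset.mem_coe, Finset.mem_sigma]
      refine ⟨?_, h3⟩
      have := P.cl n x.1 h4.1 x.2 (fun i hi => GeZ_GT L hq (P.wk n x.1 h4.1) (s1 i hi)) s3
      rw [h6] at this
      exact this
    · intro x hx x' hx' he
      obtain ⟨-, hv, hmax⟩ := hg x hx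
      obtain ⟨-, hv', hmax'⟩ := hg x' hx'
      rw [Finset.mem_coe, Finset.mem_sigma, Finset.mem_powersetCard] at hx hx'
      obtain ⟨h4, h5, h6⟩ := hx
      obtain ⟨h4', h5', h6'⟩ := hx'
      rw [hA, Finset.mem_filter] at h4 h4'
      have w1 := P.wk n x.1 h4.1
      have w1' := P.wk n x'.1 h4'.1
      obtain ⟨s1, s2, s3⟩ := YZ_ok L h5
      obtain ⟨s1', s2', s3'⟩ := YZ_ok L h5'
      simp only [Sigma.mk.injEq] at he
      obtain ⟨e1, e2⟩ := he
      have e2 := eq_of_heq e2
      have t1 : ∀ i ∈ x.2, GT L o x.1 n i := fun i hi => GeZ_GT L hq w1 (s1 i hi)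
      have t1' : ∀ i ∈ x'.2, GT L o x'.1 n i := fun i hi => GeZ_GT L hq w1' (s1' i hi)
      have f1 := new_filter L w1 t1
      have f2 := new_filter L w1' t1'
      rw [← e1] at f2
      have hll : x.1 = x'.1 := by
        rw [← f1]
        conv_rhs => rw [← f2]
        refine List.filter_congr ?_
        intro w hw
        rw [decide_eq_decide, newZ_iff L hq w1 s1 hv hmax hw]
        rw [e1] at hw
        rw [newZ_iff L hq w1' s1' hv' hmax' hw, e2]
      obtain ⟨l, S⟩ := x
      obtain ⟨l', S'⟩ := x'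
      simp only at *
      subst hll
      congr 1
      ext i
      constructor
      · intro hi
        rw [mem_S_iff L w1 t1' s2' (t1 i hi) (s2 i hi), ← e1]
        exact (mem_S_iff L w1 t1 s2 (t1 i hi) (s2 i hi)).1 hi
      · intro hi
        rw [mem_S_iff L w1 t1 s2 (t1' i hi) (s2' i hi), e1]
        exact (mem_S_iff L w1 t1' s2' (t1' i hi) (s2' i hi)).1 hi
  refine h2.trans ?_
  rw [Finset.card_sigma]
  calc ∑ l' ∈ P.F (n + 2 * r), (OptZ L q z l').card ≤ ∑ _l' ∈ P.F (n + 2 * r), (L.Δ + 1) ^ 2 :=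
        Finset.sum_le_sum fun l' _ => OptZ_card L l'
    _ = _ := by rw [Finset.sum_const, smul_eq_mul, mul_comm]

/-- the sites of maximal distance from `z` -/
noncomputable def Rm (q : V → V → ℤ) (z : V) (l : List V) : Finset V :=
  l.toFinset.filter (fun v => ∀ a ∈ l, q a z ≤ q v z)

theorem mem_Rm {v : V} : v ∈ Rm q z l ↔ v ∈ l ∧ ∀ a ∈ l, q a z ≤ q v z := by
  unfold Rm
  rw [Finset.mem_filter, List.mem_toFinset]

theorem Rm_len (q : V → V → ℤ) (z : V) (l : List V) : (Rm q z l).card ≤ l.length := by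
  unfold Rm
  exact (Finset.card_filter_le _ _).trans (List.toFinset_card_le l)

theorem Rm_ne (hl : l ≠ []) : ∃ v, v ∈ Rm q z l := by
  obtain ⟨a0, ha0⟩ := List.exists_mem_of_ne_nil l hl
  obtain ⟨x, hx, h⟩ := Finset.exists_max_image l.toFinset (fun x => q x z)
    ⟨a0, List.mem_toFinset.2 ha0⟩
  exact ⟨x, mem_Rm.2 ⟨List.mem_toFinset.1 hx, fun a ha => h a (List.mem_toFinset.2 ha)⟩⟩

end core

section tail
variable {V : Type}

theorem Rm_le {ι : Type} [Fintype ι] (Ls : ι → Lay V) {q : V → V → ℤ} (hq : ∀ i, MQ (Ls i) q)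
    (hq0 : ∀ v u, v ≠ u → 0 < q v u) (hq1 : ∀ v, q v v ≤ 0)
    (hdom : ∀ v u, v ≠ u → ∃ i, Dom (Ls i) q v u) {D : Set V} {o : V} (z : V) {n : ℕ}
    {l : List V} (hl : ∀ i, l ∈ WK (Ls i) D o n) :
    (Rm q z l).card ≤
      2 + ∑ i : ι, 2 * ((YZ (Ls i) q z o l n 0).card + (YZ (Ls i) q z o l n 1).card) := by
  have hsub : Rm q z l ⊆ {site o l 0, site o l n} ∪ (Finset.univ : Finset ι).biUnion (fun i =>
      ((YZ (Ls i) q z o l n 0) ∪ (YZ (Ls i) q z o l n 1)).image (site o l) ∪
      ((YZ (Ls i) q z o l n 0) ∪ (YZ (Ls i) q z o l n 1)).image (fun k => site o l (k + 1))) := by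
    intro v hv
    rw [mem_Rm] at hv
    obtain ⟨hvl, hmax⟩ := hv
    rw [Finset.mem_union]
    by_cases hends : v = site o l 0 ∨ v = site o l n
    · left
      simpa using hends
    right
    push Not at hends
    have hvu : v ≠ z := by
      rintro rfl
      have h0 := hmax (site o l 0) ?_
      · have := hq0 (site o l 0) v (Ne.symm hends.1)
        have := hq1 v
        omega
      · by_cases hι : Nonempty ι
        · exact site_mem (Ls hι.some) (hl hι.some) (Nat.zero_le _)
        · exfalso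
          rw [not_nonempty_iff] at hι
          obtain ⟨i, -⟩ := hdom v _ hends.1
          exact hι.elim i
    obtain ⟨i, hi⟩ := hdom v z hvu
    obtain ⟨k, hk, hvk⟩ := mem_site (Ls i) (hl i) hvl
    have hk0 : k ≠ 0 := fun h => hends.1 (by rw [hvk, h])
    have hkn : k ≠ n := fun h => hends.2 (by rw [hvk, h])
    obtain ⟨j, rfl⟩ : ∃ j, k = j + 1 := ⟨k - 1, by omega⟩
    have hup : (Ls i).up v ∉ l := by
      intro h
      have h1 := hmax _ h
      rw [(hq i).up] at h1
      have := hi.1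
      omega
    have a1 : (Ls i).adj v (site o l (j + 2)) := by
      rw [hvk]
      exact site_adj (Ls i) (hl i) (by omega)
    have a2 : (Ls i).adj (site o l j) v := by
      rw [hvk]
      exact site_adj (Ls i) (hl i) (by omega)
    have m1 : site o l (j + 2) ∈ l := site_mem (Ls i) (hl i) (by omega)
    have m2 : site o l j ∈ l := site_mem (Ls i) (hl i) (by omega)
    have hcase : (Ls i).h (site o l (j + 2)) = (Ls i).h v ∨ (Ls i).h (site o l j) = (Ls i).h v := by
      rcases (Ls i).hor _ _ a1 with h2 | h2 | h2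
      · exact Or.inl h2
      · exact absurd (h2 ▸ m1) hup
      · rcases (Ls i).hor _ _ ((Ls i).symm _ _ a2) with h3 | h3 | h3
        · exact Or.inr h3
        · exact absurd (h3 ▸ m2) hup
        · exfalso
          have h4 := (Ls i).up_inj (h2.symm.trans h3)
          have := site_inj (Ls i) (hl i) (by omega : j + 2 ≤ n) (by omega : j ≤ n) h4
          omega
    have hYS : ∀ k : ℕ, GeZ (Ls i) q z o l n k →
        k ∈ (YZ (Ls i) q z o l n 0) ∪ (YZ (Ls i) q z o l n 1) := by
      intro k hk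
      rw [Finset.mem_union]
      unfold YZ
      rw [Finset.mem_filter, Finset.mem_filter, Finset.mem_range]
      rcases Nat.mod_two_eq_zero_or_one k with h | h
      · exact Or.inl ⟨hk.1, h, hk⟩
      · exact Or.inr ⟨hk.1, h, hk⟩
    rw [Finset.mem_biUnion]
    refine ⟨i, Finset.mem_univ _, ?_⟩
    rw [Finset.mem_union]
    rcases hcase with hc | hc
    · left
      rw [hvk]
      refine Finset.mem_image_of_mem _ (hYS (j + 1) ⟨by omega, ?_, v, Or.inl hvk, hmax, hi⟩)
      rw [← hvk]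
      exact hc.symm
    · right
      rw [Finset.mem_image]
      refine ⟨j, hYS j ⟨by omega, ?_, v, Or.inr hvk, hmax, hi⟩, hvk.symm⟩
      rw [hc, hvk]
  refine (Finset.card_le_card hsub).trans ((Finset.card_union_le _ _).trans
    (add_le_add Finset.card_le_two ?_))
  refine Finset.card_biUnion_le.trans (Finset.sum_le_sum fun i _ => ?_)
  refine (Finset.card_union_le _ _).trans ?_
  have h1 := (Finset.card_image_le (s := (YZ (Ls i) q z o l n 0) ∪ (YZ (Ls i) q z o l n 1))
    (f := site o l)).trans (Finset.card_union_le _ _)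
  have h2 := (Finset.card_image_le (s := (YZ (Ls i) q z o l n 0) ∪ (YZ (Ls i) q z o l n 1))
    (f := fun k => site o l (k + 1))).trans (Finset.card_union_le _ _)
  omega

/-- the tail of the number of the sites of maximal distance, in terms of longer walks -/
theorem Rm_tail {ι : Type} [Fintype ι] (Ls : ι → Lay V) {q : V → V → ℤ}
    (hq : ∀ i, MQ (Ls i) q) (hq0 : ∀ v u, v ≠ u → 0 < q v u) (hq1 : ∀ v, q v v ≤ 0)
    (hdom : ∀ v u, v ≠ u → ∃ i, Dom (Ls i) q v u) {o : V} (z : V) (P : ∀ i, FamG (Ls i) o)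
    {F : ℕ → Finset (List V)} (hF : ∀ i, (P i).F = F) {E : ℕ} (hΔ : ∀ i, (Ls i).Δ = E)
    (hw : ∀ n, ∀ l ∈ F n, ∀ i, l ∈ WK (Ls i) Set.univ o n) (n r : ℕ) (hr : 1 ≤ r) :
    ((F n).filter (fun l => 2 + 4 * Fintype.card ι * ((1 + 3 * E ^ 2) * r) <
      (Rm q z l).card)).card * (3 * E ^ 2) ^ r ≤
      4 * Fintype.card ι * (E + 1) ^ 2 * (F (n + 2 * r)).card := by
  have hsub : (F n).filter (fun l => 2 + 4 * Fintype.card ι * ((1 + 3 * E ^ 2) * r) <
      (Rm q z l).card) ⊆ (Finset.univ : Finset ι).biUnion (fun i =>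
        (Finset.range 2).biUnion (fun π =>
        ((P i).F n).filter
          (fun l => (1 + 3 * (Ls i).Δ ^ 2) * r ≤ (YZ (Ls i) q z o l n π).card))) := by
    intro l hl
    rw [Finset.mem_filter] at hl
    obtain ⟨i, π, h1, h2⟩ : ∃ i, ∃ π, π < 2 ∧
        (1 + 3 * E ^ 2) * r ≤ (YZ (Ls i) q z o l n π).card := by
      by_contra hcon
      push Not at hcon
      have h1 := Rm_le Ls hq hq0 hq1 hdom z (hw n l hl.1)
      have h2 : ∑ i : ι, 2 * ((YZ (Ls i) q z o l n 0).card + (YZ (Ls i) q z o l n 1).card) ≤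
          ∑ _i : ι, 4 * ((1 + 3 * E ^ 2) * r) := by
        refine Finset.sum_le_sum fun i _ => ?_
        have := hcon i 0 (by norm_num)
        have := hcon i 1 (by norm_num)
        omega
      rw [Finset.sum_const, Finset.card_univ, smul_eq_mul] at h2
      have h3 : Fintype.card ι * (4 * ((1 + 3 * E ^ 2) * r)) =
          4 * Fintype.card ι * ((1 + 3 * E ^ 2) * r) := by ring
      have h4 := hl.2
      omega
    rw [Finset.mem_biUnion]
    refine ⟨i, Finset.mem_univ _, ?_⟩
    rw [Finset.mem_biUnion]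
    refine ⟨π, Finset.mem_range.2 h1, ?_⟩
    rw [Finset.mem_filter, hF i, hΔ i]
    exact ⟨hl.1, h2⟩
  have h1 := (Finset.card_le_card hsub).trans Finset.card_biUnion_le
  calc _ ≤ (∑ i : ι, ((Finset.range 2).biUnion (fun π =>
        ((P i).F n).filter (fun l => (1 + 3 * (Ls i).Δ ^ 2) * r ≤
          (YZ (Ls i) q z o l n π).card))).card) * (3 * E ^ 2) ^ r := Nat.mul_le_mul_right _ h1
    _ = ∑ i : ι, ((Finset.range 2).biUnion (fun π =>
        ((P i).F n).filter (fun l => (1 + 3 * (Ls i).Δ ^ 2) * r ≤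
          (YZ (Ls i) q z o l n π).card))).card * (3 * E ^ 2) ^ r := by rw [Finset.sum_mul]
    _ ≤ ∑ _i : ι, 4 * (E + 1) ^ 2 * (F (n + 2 * r)).card := by
        refine Finset.sum_le_sum fun i _ => ?_
        refine (Nat.mul_le_mul_right _ Finset.card_biUnion_le).trans ?_
        rw [Finset.sum_mul]
        calc _ ≤ ∑ _π ∈ Finset.range 2, 2 * (E + 1) ^ 2 * (F (n + 2 * r)).card := by
              refine Finset.sum_le_sum fun π _ => ?_
              have h5 := dblZ (Ls i) (P i) (hq i) z n π r ((1 + 3 * (Ls i).Δ ^ 2) * r) hr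
              have h6 := choose_ge (3 * (Ls i).Δ ^ 2) r
              have h7 := (Nat.mul_le_mul_left _ h6).trans h5
              rw [hF i, hΔ i] at h7
              rw [hF i, hΔ i]
              refine h7.trans (Nat.mul_le_mul_right _ ?_)
              omega
          _ = _ := by
              rw [Finset.sum_const, Finset.card_range, smul_eq_mul]
              ring
    _ = _ := by
        rw [Finset.sum_const, Finset.card_univ, smul_eq_mul]
        ring

end tail

section zd
variable {d : ℕ}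

theorem zd_tailR (o z : Fin d → ℤ) (j : Fin d × Bool) (n r : ℕ) (hr : 1 ≤ r) :
    3 ^ r * ((WF (Ls j) Set.univ o n).filter
      (fun l => 2 + 8 * d * ((1 + 12 * d ^ 2) * r) < (Rm sqd z l).card)).card ≤
      8 * d * (2 * d + 1) ^ 2 * (WF (Ls j) Set.univ o n).card := by
  have h1 := Rm_tail (Ls (d := d)) MQ_Ls (fun v u h => sqd_pos h) (fun v => (sqd_self v).le)
    Dom_Ls z (fun i => Pw o i j) (F := fun n => WF (Ls j) Set.univ o n) (fun i => rfl)
    (E := 2 * d) (fun i => rfl) (fun n l hl i => by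
      rw [mem_WF] at hl
      exact hl) n r hr
  have hc : Fintype.card (Fin d × Bool) = 2 * d := by
    rw [Fintype.card_prod, Fintype.card_fin, Fintype.card_bool, mul_comm]
  rw [hc] at h1
  have h2 := WF_add (Ls j) Set.univ o n (2 * r)
  have hE : (Ls j).Δ = 2 * d := rfl
  rw [hE] at h2
  have e1 : 4 * (2 * d) * ((1 + 3 * (2 * d) ^ 2) * r) = 8 * d * ((1 + 12 * d ^ 2) * r) := by ring
  rw [e1] at h1
  set A := ((WF (Ls j) Set.univ o n).filter
      (fun l => 2 + 8 * d * ((1 + 12 * d ^ 2) * r) < (Rm sqd z l).card)).card with hA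
  have hd : 0 < d := j.1.pos
  have hpos : 0 < (2 * d) ^ (2 * r) := Nat.pow_pos (by omega)
  refine Nat.le_of_mul_le_mul_left ?_ hpos
  have e3 : (3 * (2 * d) ^ 2) ^ r = 3 ^ r * (2 * d) ^ (2 * r) := by
    rw [mul_pow 3, ← pow_mul]
  calc (2 * d) ^ (2 * r) * (3 ^ r * A) = A * (3 * (2 * d) ^ 2) ^ r := by
        rw [e3]
        ring
    _ ≤ 4 * (2 * d) * (2 * d + 1) ^ 2 * (WF (Ls j) Set.univ o (n + 2 * r)).card := h1
    _ ≤ 4 * (2 * d) * (2 * d + 1) ^ 2 * ((2 * d) ^ (2 * r) * (WF (Ls j) Set.univ o n).card) :=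
        Nat.mul_le_mul_left _ h2
    _ = _ := by ring

end zd

end Run7.h647.DM
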