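import Pool.Agent.Run7.h647.DM.Rad

/-! # The number of the sites of maximal distance from a point; pairs of walks -/

set_option autoImplicit false

namespace Run7.h647.DM

open scoped Classical
open Run7.h738.EX

section
variable {d : ℕ}

/-- **the tail** -/
theorem zd_expR (o z : Fin d → ℤ) (j : Fin d × Bool) (n : ℕ) {x : ℝ} (hx : 0 ≤ x) :
    (((WF (Ls j) Set.univ o n).filter
      (fun l => 630 * (d : ℝ) ^ 4 * (1 + x) < (Rm sqd z l).card)).card : ℝ) ≤
      Real.exp (-x) * (WF (Ls j) Set.univ o n).card := by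
  have hd : 1 ≤ d := j.1.pos
  have hd' : (1 : ℝ) ≤ d := by exact_mod_cast hd
  obtain ⟨r, hr⟩ : ∃ r, r = ⌈x⌉₊ + 5 * d := ⟨_, rfl⟩
  have h1 := zd_tailR o z j n r (by omega)
  have h2 := c_le hd
  set c := (WF (Ls j) Set.univ o n).card with hc
  have hrx : (r : ℝ) ≤ (x + 1) + 5 * d := by
    have := (Nat.ceil_lt_add_one hx).le
    rw [hr]
    push_cast
    linarith
  have hsub : (WF (Ls j) Set.univ o n).filter
      (fun l => 630 * (d : ℝ) ^ 4 * (1 + x) < (Rm sqd z l).card) ⊆
      (WF (Ls j) Set.univ o n).filter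
      (fun l => 2 + 8 * d * ((1 + 12 * d ^ 2) * r) < (Rm sqd z l).card) := by
    intro l hl
    rw [Finset.mem_filter] at hl ⊢
    refine ⟨hl.1, ?_⟩
    have h3 : ((2 + 8 * d * ((1 + 12 * d ^ 2) * r) : ℕ) : ℝ) ≤ 630 * (d : ℝ) ^ 4 * (1 + x) := by
      push_cast
      have e1 : (1 : ℝ) + 12 * d ^ 2 ≤ 13 * d ^ 2 := by nlinarith
      have e2 : (x + 1) + 5 * d ≤ 6 * d * (1 + x) := by nlinarith
      have e3 : (1 : ℝ) ≤ d ^ 4 := one_le_pow₀ hd'
      have e4 : (1 : ℝ) * 1 ≤ d ^ 4 * (1 + x) := mul_le_mul e3 (by linarith) (by norm_num) (by positivity)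
      calc 2 + 8 * (d : ℝ) * ((1 + 12 * d ^ 2) * r)
          ≤ 2 + 8 * d * ((13 * d ^ 2) * (6 * d * (1 + x))) := by
            gcongr
            exact hrx.trans e2
        _ = 2 + 624 * (d ^ 4 * (1 + x)) := by ring
        _ ≤ _ := by linarith
    exact_mod_cast lt_of_le_of_lt h3 hl.2
  have h4 : (((WF (Ls j) Set.univ o n).filter
      (fun l => 2 + 8 * d * ((1 + 12 * d ^ 2) * r) < (Rm sqd z l).card)).card : ℝ) ≤
      Real.exp (-x) * c := by
    set A := ((WF (Ls j) Set.univ o n).filter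
      (fun l => 2 + 8 * d * ((1 + 12 * d ^ 2) * r) < (Rm sqd z l).card)).card with hA
    have h5 : 3 ^ r * A ≤ 3 ^ (5 * d) * c := h1.trans (Nat.mul_le_mul_right _ h2)
    rw [hr, pow_add, mul_comm (3 ^ ⌈x⌉₊), mul_assoc] at h5
    have h6 := Nat.le_of_mul_le_mul_left h5 (by positivity)
    have h7 : (3 : ℝ) ^ ⌈x⌉₊ * A ≤ c := by exact_mod_cast h6
    have h8 : Real.exp x ≤ 3 ^ ⌈x⌉₊ := by
      calc Real.exp x ≤ Real.exp (⌈x⌉₊ : ℝ) := Real.exp_le_exp.2 (Nat.le_ceil x)
        _ = Real.exp 1 ^ ⌈x⌉₊ := by rw [← Real.exp_nat_mul, mul_one]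
        _ ≤ 3 ^ ⌈x⌉₊ := pow_le_pow_left₀ (Real.exp_pos _).le (by
            have := Real.exp_one_lt_d9
            linarith) _
    rw [Real.exp_neg, inv_mul_eq_div, le_div_iff₀ (Real.exp_pos x), mul_comm]
    exact (mul_le_mul_of_nonneg_right h8 (Nat.cast_nonneg _)).trans h7
  refine le_trans ?_ h4
  exact_mod_cast Finset.card_le_card hsub

/-- the mean -/
theorem zd_meanR (o z : Fin d → ℤ) (j : Fin d × Bool) (n : ℕ) :
    ∑ l ∈ WF (Ls j) Set.univ o n, (Rm sqd z l).card ≤
      1000 * d ^ 4 * (WF (Ls j) Set.univ o n).card := by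
  have hd : 1 ≤ d := j.1.pos
  set W := WF (Ls j) Set.univ o n with hW
  set a := 8 * d * (1 + 12 * d ^ 2) with ha
  have ha1 : 1 ≤ a := by
    rw [ha]
    nlinarith [Nat.zero_le (d ^ 3)]
  set c0 := 5 * d with hc0
  -- pointwise
  obtain ⟨T, hT⟩ : ∃ T, T = n + 1 := ⟨_, rfl⟩
  have hpt : ∀ l ∈ W, (Rm sqd z l).card ≤ 2 + a + a * c0 + a * ∑ r ∈ Finset.range T,
      (if 2 + a * (c0 + r + 1) < (Rm sqd z l).card then 1 else 0) := by
    intro l hl
    set X := (Rm sqd z l).card with hX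
    have hXn : X ≤ n + 1 := by
      rw [hW, mem_WF] at hl
      calc X ≤ l.length := Rm_len _ _ l
        _ = n + 1 := hl.1
    rw [← Finset.card_filter (fun r => 2 + a * (c0 + r + 1) < X) (Finset.range T)]
    by_cases h : X ≤ 2 + a + a * c0
    · omega
    push Not at h
    -- number of thresholds below `X`
    set m := (X - 3 - a * c0) / a with hm
    have hm1 : a * m ≤ X - 3 - a * c0 := Nat.mul_div_le _ _
    have hm2 : X - 3 - a * c0 < a * (m + 1) := Nat.lt_mul_div_succ _ (by omega)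
    have hmT : m ≤ T := by
      have : m ≤ X - 3 - a * c0 := Nat.div_le_self _ _
      omega
    have hsub : Finset.range m ⊆ (Finset.range T).filter
        (fun r => 2 + a * (c0 + r + 1) < X) := by
      intro r hr
      rw [Finset.mem_range] at hr
      rw [Finset.mem_filter, Finset.mem_range]
      refine ⟨by omega, ?_⟩
      have h1 : a * (r + 1) ≤ a * m := Nat.mul_le_mul_left _ hr
      have e : a * (c0 + r + 1) = a * c0 + a * (r + 1) := by ring
      omega
    have h2 := Finset.card_le_card hsub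
    rw [Finset.card_range] at h2
    have h3 : a * m ≤ a * ((Finset.range T).filter (fun r => 2 + a * (c0 + r + 1) < X)).card :=
      Nat.mul_le_mul_left _ h2
    rw [mul_add, mul_one] at hm2
    omega
  have hsum : ∑ l ∈ W, (Rm sqd z l).card ≤ (2 + a + a * c0) * W.card + a * ∑ r ∈ Finset.range T,
      (W.filter (fun l => 2 + a * (c0 + r + 1) < (Rm sqd z l).card)).card := by
    refine (Finset.sum_le_sum hpt).trans (le_of_eq ?_)
    rw [Finset.sum_add_distrib, Finset.sum_const, smul_eq_mul, ← Finset.mul_sum, Finset.sum_comm,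
      mul_comm]
    congr 2
    refine Finset.sum_congr rfl fun r _ => ?_
    rw [Finset.card_filter]
  have hterm : ∀ r : ℕ, 3 ^ (r + 1) *
      (W.filter (fun l => 2 + a * (c0 + r + 1) < (Rm sqd z l).card)).card ≤ W.card := by
    intro r
    have h1 := zd_tailR o z j n (c0 + r + 1) (by omega)
    have h2 := c_le hd
    have e : 8 * d * ((1 + 12 * d ^ 2) * (c0 + r + 1)) = a * (c0 + r + 1) := by
      rw [ha]
      ring
    rw [e] at h1
    have h3 := h1.trans (Nat.mul_le_mul_right _ h2)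
    rw [add_assoc, pow_add, mul_assoc] at h3
    exact Nat.le_of_mul_le_mul_left h3 (by positivity)
  have hgeo : ∑ r ∈ Finset.range T,
      (W.filter (fun l => 2 + a * (c0 + r + 1) < (Rm sqd z l).card)).card ≤ W.card := by
    have h1 : ∀ T : ℕ, (2 * 3 ^ T) * ∑ r ∈ Finset.range T,
        (W.filter (fun l => 2 + a * (c0 + r + 1) < (Rm sqd z l).card)).card ≤
          (3 ^ T - 1) * W.card := by
      intro T
      induction T with
      | zero => simp
      | succ T ih =>
        rw [Finset.sum_range_succ, mul_add]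
        have h2 := hterm T
        set s := ∑ r ∈ Finset.range T,
          (W.filter (fun l => 2 + a * (c0 + r + 1) < (Rm sqd z l).card)).card
        set t := (W.filter (fun l => 2 + a * (c0 + T + 1) < (Rm sqd z l).card)).card
        have h3 : 1 ≤ 3 ^ T := Nat.one_le_pow _ _ (by norm_num)
        obtain ⟨p, hp⟩ : ∃ p, 3 ^ T = p + 1 := ⟨3 ^ T - 1, by omega⟩
        rw [pow_succ, hp] at h2 ⊢
        rw [hp] at ih
        rw [Nat.add_sub_cancel] at ih
        have e1 : (p + 1) * 3 - 1 = 3 * p + 2 := by omega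
        rw [e1]
        calc 2 * ((p + 1) * 3) * s + 2 * ((p + 1) * 3) * t
            = 3 * (2 * (p + 1) * s) + 2 * ((p + 1) * 3 * t) := by ring
          _ ≤ 3 * (p * W.card) + 2 * W.card := by
              have := Nat.mul_le_mul_left 3 ih
              have := Nat.mul_le_mul_left 2 h2
              omega
          _ = (3 * p + 2) * W.card := by ring
    have h2 := h1 T
    have h3 : 1 ≤ 3 ^ T := Nat.one_le_pow _ _ (by norm_num)
    have h4 : (3 ^ T - 1) * W.card ≤ (2 * 3 ^ T) * W.card := Nat.mul_le_mul_right _ (by omega)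
    exact Nat.le_of_mul_le_mul_left (h2.trans h4) (by omega)
  calc ∑ l ∈ W, (Rm sqd z l).card ≤ (2 + a + a * c0) * W.card + a * W.card :=
        hsum.trans (Nat.add_le_add_left (Nat.mul_le_mul_left _ hgeo) _)
    _ = (2 + 2 * a + a * c0) * W.card := by ring
    _ ≤ 1000 * d ^ 4 * W.card := by
        refine Nat.mul_le_mul_right _ ?_
        have e1 : 1 + 12 * d ^ 2 ≤ 13 * d ^ 2 := by nlinarith
        have e2 : a ≤ 8 * d * (13 * d ^ 2) := Nat.mul_le_mul_left _ e1
        have e3 : 2 + c0 ≤ 7 * d := by omega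
        have e4 : 1 ≤ d ^ 4 := Nat.one_le_pow _ _ hd
        calc 2 + 2 * a + a * c0 = 2 + a * (2 + c0) := by ring
          _ ≤ 2 * d ^ 4 + (8 * d * (13 * d ^ 2)) * (7 * d) :=
              Nat.add_le_add (by omega) (Nat.mul_le_mul e2 e3)
          _ = 730 * d ^ 4 := by ring
          _ ≤ _ := by omega

end

section
variable {V : Type} [AddCommGroup V] (L : Lay V)
  (hadj : ∀ u v w : V, L.adj (v + u) (w + u) ↔ L.adj v w)

include hadj in
/-- a walk split at one of its sites -/
theorem split_pairR {n : ℕ} {l : List V} (hl : l ∈ WK L Set.univ (0 : V) n) {v : V} (hv : v ∈ l) :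
    ∃ p : ℕ × List V × List V, p.1 ≤ n ∧ p.2.1 ∈ WK L Set.univ 0 p.1 ∧
      p.2.2 ∈ WK L Set.univ 0 (n - p.1) ∧ (∀ u ∈ p.2.1, u ∈ p.2.2 → u = 0) ∧ glue p = l ∧
      p.2.1.getLastD 0 = 0 - v ∧ ∀ u, (u ∈ p.2.1 ∨ u ∈ p.2.2) → u + v ∈ l := by
  have hadj' : ∀ z v w : V, L.adj v w → L.adj (v - z) (w - z) := by
    intro z v w h
    rw [← hadj z, sub_add_cancel, sub_add_cancel]
    exact h
  obtain ⟨A, B, rfl⟩ := List.append_of_mem hv
  obtain ⟨l1, l2, l3, l4, -⟩ := hl
  rw [List.length_append, List.length_cons] at l1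
  rw [List.isChain_split] at l3
  have hlast : ((v :: A.reverse).map (fun u => u - v)).getLastD 0 = 0 - v := by
    cases h5 : A with
    | nil =>
      rw [h5] at l2
      simp only [List.nil_append, List.head?_cons, Option.some.injEq] at l2
      simp [l2]
    | cons u t =>
      rw [h5] at l2
      simp only [List.cons_append, List.head?_cons, Option.some.injEq] at l2
      rw [List.getLastD_eq_getLast?, List.getLast?_map, List.getLast?_cons,
        List.getLast?_reverse]
      simp [l2]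
  refine ⟨(A.length, (v :: A.reverse).map (fun u => u - v), (v :: B).map (fun u => u - v)),
    by simp only; omega, ⟨?_, ?_, ?_, ?_, fun _ _ => Set.mem_univ _⟩,
    ⟨?_, ?_, ?_, ?_, fun _ _ => Set.mem_univ _⟩, ?_, ?_, hlast, ?_⟩
  · simp
  · simp
  · simp only
    rw [List.isChain_map]
    have h6 : (v :: A.reverse) = (A ++ [v]).reverse := by simp
    rw [h6]
    have h7 : (A ++ [v]).reverse.IsChain L.adj := by
      rw [List.isChain_reverse]
      exact l3.1.imp fun _ _ h => L.symm _ _ h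
    exact h7.imp fun _ _ h => hadj' v _ _ h
  · refine List.Nodup.map (fun u w h => sub_left_injective h) ?_
    have h6 : (v :: A.reverse) = (A ++ [v]).reverse := by simp
    rw [h6, List.nodup_reverse]
    have h7 : A ++ v :: B = (A ++ [v]) ++ B := by simp
    rw [h7, List.nodup_append] at l4
    exact l4.1
  · simp only [List.length_map, List.length_cons]
    omega
  · simp
  · simp only
    rw [List.isChain_map]
    exact l3.2.imp fun _ _ h => hadj' v _ _ h
  · refine List.Nodup.map (fun u w h => sub_left_injective h) ?_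
    rw [List.nodup_append] at l4
    exact l4.2.1
  · intro u hu hu2
    simp only [List.mem_map, List.mem_cons, List.mem_reverse] at hu hu2
    obtain ⟨w, hw, rfl⟩ := hu
    obtain ⟨w2, hw2, h8⟩ := hu2
    have h9 : w2 = w := sub_left_injective h8
    rw [h9] at hw2
    rcases hw with rfl | hw
    · simp
    · exfalso
      rw [List.nodup_append] at l4
      exact l4.2.2 w hw w (by rcases hw2 with h | h <;> simp [h]) rfl
  · unfold glue
    simp only
    rw [hlast]
    simp only [List.map_cons, List.tail_cons, sub_self]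
    have h10 : ((A.reverse.map (fun u => u - v)).reverse ++ (0 : V) :: B.map (fun u => u - v)) =
        (A ++ v :: B).map (fun u => u - v) := by
      simp [List.map_reverse]
    rw [h10, List.map_map]
    conv_rhs => rw [← List.map_id (A ++ v :: B)]
    refine List.map_congr_left ?_
    intro u _
    simp
  · intro u hu
    simp only [List.mem_map, List.mem_cons, List.mem_reverse] at hu
    rcases hu with ⟨w, hw, rfl⟩ | ⟨w, hw, rfl⟩
    · rw [sub_add_cancel]
      rcases hw with h | h <;> simp [h]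
    · rw [sub_add_cancel]
      rcases hw with h | h <;> simp [h]

end

section
variable {d : ℕ}

/-- the pairs `(a, b)` of walks from `0`, with `n` steps together, which meet at `0` only, such that
`0` is at the maximal distance from the last site of `a` -/
def PZ (j : Fin d × Bool) (n : ℕ) : Set (ℕ × List (Fin d → ℤ) × List (Fin d → ℤ)) :=
  {p | p.1 ≤ n ∧ p.2.1 ∈ WK (Ls j) Set.univ 0 p.1 ∧ p.2.2 ∈ WK (Ls j) Set.univ 0 (n - p.1) ∧
    (∀ v ∈ p.2.1, v ∈ p.2.2 → v = 0) ∧
      ∀ a, (a ∈ p.2.1 ∨ a ∈ p.2.2) → sqd a (p.2.1.getLastD 0) ≤ sqd 0 (p.2.1.getLastD 0)}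

theorem PZ_sub (j : Fin d × Bool) (n : ℕ) : PZ j n ⊆ PR (Ls j) n n := by
  rintro p ⟨h1, h2, h3, h4, -⟩
  refine ⟨h1, ⟨h2.1, h2.2.1, h2.2.2.1, h2.2.2.2.1, fun v hv => ?_⟩,
    ⟨h3.1, h3.2.1, h3.2.2.1, h3.2.2.2.1, fun v hv => ?_⟩, h4⟩
  · have := h_le j h2 hv
    show (Ls j).h v ≤ n
    have : (p.1 : ℤ) ≤ n := by exact_mod_cast h1
    omega
  · have := h_le j h3 hv
    show (Ls j).h v ≤ n
    push_cast [h1] at this
    omega

theorem PZ_le (j : Fin d × Bool) (n : ℕ) :
    (PZ j n).ncard ≤ ∑ l ∈ WF (Ls j) Set.univ 0 n, (Rm sqd 0 l).card := by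
  rw [← Finset.card_sigma, ← Set.ncard_coe_finset]
  refine Set.ncard_le_ncard_of_injOn
    (fun p : ℕ × List (Fin d → ℤ) × List (Fin d → ℤ) =>
      (⟨glue p, - p.2.1.getLastD 0⟩ : Σ _ : List (Fin d → ℤ), (Fin d → ℤ))) ?_
    ((glue_injOn (Ls j) (adj_Ls j) (h_Ls j) n n).mono (PZ_sub j n)) (Finset.finite_toSet _)
  intro p hp
  have hp' := hp
  obtain ⟨h1, h2, h3, h4, h5⟩ := hp'
  rw [Finset.mem_coe, Finset.mem_sigma, mem_WF]
  refine ⟨glue_mem (Ls j) (adj_Ls j) (PZ_sub j n hp), ?_⟩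
  simp only
  rw [mem_Rm]
  set z := p.2.1.getLastD 0 with hz
  have h0 : (0 : Fin d → ℤ) ∈ p.2.1 := by
    have := (WK_cons (Ls j) h2).1
    rw [this]
    exact List.mem_cons_self
  refine ⟨?_, ?_⟩
  · rw [mem_glue (Ls j) h2 h3]
    exact ⟨0, Or.inl h0, by rw [zero_sub]⟩
  · intro a ha
    rw [mem_glue (Ls j) h2 h3] at ha
    obtain ⟨a', ha', rfl⟩ := ha
    have e1 : sqd (a' - z) 0 = sqd a' z := by
      rw [← sqd_sub a' z z, sub_self]
    have e2 : sqd (-z) 0 = sqd 0 z := by
      rw [← sqd_sub 0 z z, sub_self, zero_sub]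
    rw [← hz, e1, e2]
    exact h5 a' ha'

theorem PZ_ge (j : Fin d × Bool) (n : ℕ) :
    (WF (Ls j) Set.univ (0 : Fin d → ℤ) n).card ≤ (PZ j n).ncard := by
  rw [← Set.ncard_coe_finset]
  have key : ∀ l ∈ WK (Ls j) Set.univ (0 : Fin d → ℤ) n, ∃ p ∈ PZ j n, glue p = l := by
    intro l hl
    obtain ⟨v, hv⟩ := Rm_ne (q := sqd) (z := 0) (WK_ne (Ls j) hl)
    rw [mem_Rm] at hv
    obtain ⟨hvl, hmax⟩ := hv
    obtain ⟨p, p1, p2, p3, p4, p5, p7, p6⟩ := split_pairR (Ls j) (adj_Ls j) hl hvl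
    refine ⟨p, ⟨p1, p2, p3, p4, ?_⟩, p5⟩
    intro a ha
    have h1 := hmax _ (p6 a ha)
    rw [p7]
    have e1 : sqd a (0 - v) = sqd (a + v) 0 := by
      rw [← sqd_sub (a + v) 0 v, add_sub_cancel_right]
    have e2 : sqd 0 (0 - v) = sqd v 0 := by
      rw [← sqd_sub v 0 v, sub_self]
    rw [e1, e2]
    exact h1
  choose! f hf using key
  refine Set.ncard_le_ncard_of_injOn f ?_ ?_ ((PR_finite (Ls j) n n).subset (PZ_sub j n))
  · intro l hl
    rw [Finset.mem_coe, mem_WF] at hl
    exact (hf l hl).1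
  · intro l hl l' hl' he
    rw [Finset.mem_coe, mem_WF] at hl hl'
    rw [← (hf l hl).2, ← (hf l' hl').2, he]

end

end Run7.h647.DM
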