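import Pool.Agent.Run7.h647.DM.Core

/-! # The number of the ends of the diameters -/

set_option autoImplicit false

namespace Run7.h647.DM

open scoped Classical
open Run7.h738.EX

variable {V : Type}

/-- the diametral sites -/
noncomputable def Dm (q : V → V → ℤ) (l : List V) : Finset V :=
  l.toFinset.filter (fun v => ∃ u ∈ l, ∀ a ∈ l, ∀ b ∈ l, q a b ≤ q v u)

theorem mem_Dm {q : V → V → ℤ} {l : List V} {v : V} :
    v ∈ Dm q l ↔ v ∈ l ∧ ∃ u ∈ l, ∀ a ∈ l, ∀ b ∈ l, q a b ≤ q v u := by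
  unfold Dm
  rw [Finset.mem_filter, List.mem_toFinset]

theorem Dm_len (q : V → V → ℤ) (l : List V) : (Dm q l).card ≤ l.length := by
  unfold Dm
  exact (Finset.card_filter_le _ _).trans (List.toFinset_card_le l)

theorem Dm_ne {q : V → V → ℤ} {l : List V} (hl : l ≠ []) : ∃ v, v ∈ Dm q l := by
  obtain ⟨a, ha, b, hb, h⟩ := exists_far (q := q) hl
  exact ⟨a, mem_Dm.2 ⟨ha, b, hb, h⟩⟩

theorem Dm_le {ι : Type} [Fintype ι] (Ls : ι → Lay V) {q : V → V → ℤ} (hq : ∀ i, MQ (Ls i) q)
    (hq0 : ∀ v u, v ≠ u → 0 < q v u) (hq1 : ∀ v, q v v ≤ 0)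
    (hdom : ∀ v u, v ≠ u → ∃ i, Dom (Ls i) q v u) {D : Set V} {o : V} {n : ℕ} {l : List V}
    (hl : ∀ i, l ∈ WK (Ls i) D o n) :
    (Dm q l).card ≤ 2 + ∑ i : ι, 2 * ((YS (Ls i) q o l n 0).card + (YS (Ls i) q o l n 1).card) := by
  have hsub : Dm q l ⊆ {site o l 0, site o l n} ∪ (Finset.univ : Finset ι).biUnion (fun i =>
      ((YS (Ls i) q o l n 0) ∪ (YS (Ls i) q o l n 1)).image (site o l) ∪
      ((YS (Ls i) q o l n 0) ∪ (YS (Ls i) q o l n 1)).image (fun k => site o l (k + 1))) := by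
    intro v hv
    unfold Dm at hv
    rw [Finset.mem_filter, List.mem_toFinset] at hv
    obtain ⟨hvl, u, hu, hmax⟩ := hv
    rw [Finset.mem_union]
    by_cases hends : v = site o l 0 ∨ v = site o l n
    · left
      simpa using hends
    right
    push Not at hends
    have hvu : v ≠ u := by
      rintro rfl
      have h0 := hmax (site o l 0) ?_ v hvl
      · have := hq0 (site o l 0) v (Ne.symm hends.1)
        have := hq1 v
        omega
      · by_cases hι : Nonempty ι
        · exact site_mem (Ls hι.some) (hl hι.some) (Nat.zero_le _)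
        · exfalso
          rw [not_nonempty_iff] at hι
          by_cases h3 : v = site o l 0
          · exact hends.1 h3
          · obtain ⟨i, -⟩ := hdom v _ h3
            exact hι.elim i
    obtain ⟨i, hi⟩ := hdom v u hvu
    obtain ⟨k, hk, hvk⟩ := mem_site (Ls i) (hl i) hvl
    have hk0 : k ≠ 0 := fun h => hends.1 (by rw [hvk, h])
    have hkn : k ≠ n := fun h => hends.2 (by rw [hvk, h])
    obtain ⟨j, rfl⟩ : ∃ j, k = j + 1 := ⟨k - 1, by omega⟩
    have hD : IsD q l (q v u) := ⟨⟨v, hvl, u, hu, rfl⟩, hmax⟩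
    have hup : (Ls i).up v ∉ l := by
      intro h
      have h1 := hmax _ h u hu
      rw [(hq i).up] at h1
      have := hi.1
      omega
    have a1 : (Ls i).adj v (site o l (j + 2)) := by
      rw [hvk]
      exact site_adj (Ls i) (hl i) (by omega)
    have a2 : (Ls i).adj (site o l j) v := by
      rw [hvk]
      exact site_adj (Ls i) (hl i) (by omega)
    have m1 : site o l (j + 2) ∈ l := site_mem (Ls i) (hl i) (by omega)
    have m2 : site o l j ∈ l := site_mem (Ls i) (hl i) (by omega)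
    have hcase : (Ls i).h (site o l (j + 2)) = (Ls i).h v ∨ (Ls i).h (site o l j) = (Ls i).h v := by
      rcases (Ls i).hor _ _ a1 with h2 | h2 | h2
      · exact Or.inl h2
      · exact absurd (h2 ▸ m1) hup
      · rcases (Ls i).hor _ _ ((Ls i).symm _ _ a2) with h3 | h3 | h3
        · exact Or.inr h3
        · exact absurd (h3 ▸ m2) hup
        · exfalso
          have h4 := (Ls i).up_inj (h2.symm.trans h3)
          have := site_inj (Ls i) (hl i) (by omega : j + 2 ≤ n) (by omega : j ≤ n) h4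
          omega
    have hYS : ∀ k : ℕ, Ge (Ls i) q o l n (q v u) k →
        k ∈ (YS (Ls i) q o l n 0) ∪ (YS (Ls i) q o l n 1) := by
      intro k hk
      rw [Finset.mem_union]
      unfold YS
      rw [Finset.mem_filter, Finset.mem_filter, Finset.mem_range]
      rcases Nat.mod_two_eq_zero_or_one k with h | h
      · exact Or.inl ⟨hk.1, h, _, hD, hk⟩
      · exact Or.inr ⟨hk.1, h, _, hD, hk⟩
    rw [Finset.mem_biUnion]
    refine ⟨i, Finset.mem_univ _, ?_⟩
    rw [Finset.mem_union]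
    rcases hcase with hc | hc
    · left
      rw [hvk]
      refine Finset.mem_image_of_mem _ (hYS (j + 1) ⟨by omega, ?_, v, u, Or.inl hvk, hu, rfl, hi⟩)
      rw [← hvk]
      exact hc.symm
    · right
      rw [Finset.mem_image]
      refine ⟨j, hYS j ⟨by omega, ?_, v, u, Or.inr hvk, hu, rfl, hi⟩, hvk.symm⟩
      rw [hc, hvk]
  refine (Finset.card_le_card hsub).trans ((Finset.card_union_le _ _).trans
    (add_le_add Finset.card_le_two ?_))
  refine Finset.card_biUnion_le.trans (Finset.sum_le_sum fun i _ => ?_)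
  refine (Finset.card_union_le _ _).trans ?_
  have h1 := (Finset.card_image_le (s := (YS (Ls i) q o l n 0) ∪ (YS (Ls i) q o l n 1))
    (f := site o l)).trans (Finset.card_union_le _ _)
  have h2 := (Finset.card_image_le (s := (YS (Ls i) q o l n 0) ∪ (YS (Ls i) q o l n 1))
    (f := fun k => site o l (k + 1))).trans (Finset.card_union_le _ _)
  omega

/-- many diametral sites give many good edges of a class -/
theorem Dm_class {ι : Type} [Fintype ι] (Ls : ι → Lay V) {q : V → V → ℤ}
    (hq : ∀ i, MQ (Ls i) q) (hq0 : ∀ v u, v ≠ u → 0 < q v u) (hq1 : ∀ v, q v v ≤ 0)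
    (hdom : ∀ v u, v ≠ u → ∃ i, Dom (Ls i) q v u) {D : Set V} {o : V} {n N : ℕ} {l : List V}
    (hl : ∀ i, l ∈ WK (Ls i) D o n) (h : 2 + 4 * Fintype.card ι * N < (Dm q l).card) :
    ∃ i, ∃ π, π < 2 ∧ N ≤ (YS (Ls i) q o l n π).card := by
  by_contra hcon
  push Not at hcon
  have h1 := Dm_le Ls hq hq0 hq1 hdom hl
  have h2 : ∑ i : ι, 2 * ((YS (Ls i) q o l n 0).card + (YS (Ls i) q o l n 1).card) ≤
      ∑ _i : ι, 4 * N := by
    refine Finset.sum_le_sum fun i _ => ?_
    have := hcon i 0 (by norm_num)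
    have := hcon i 1 (by norm_num)
    omega
  rw [Finset.sum_const, Finset.card_univ, smul_eq_mul] at h2
  have h3 : Fintype.card ι * (4 * N) = 4 * Fintype.card ι * N := by ring
  omega

section
variable (L : Lay V) {o : V} (P : FamG L o) {q : V → V → ℤ}

/-- the tail of the number of the good edges of a class, in terms of longer walks -/
theorem class_le (hq : MQ L q) (n π r : ℕ) (hr : 1 ≤ r) :
    ((P.F n).filter (fun l => (1 + 3 * L.Δ ^ 2) * r ≤ (YS L q o l n π).card)).card *
      (3 * L.Δ ^ 2) ^ r ≤ 2 * (L.Δ + 1) ^ 2 * (P.F (n + 2 * r)).card := by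
  have h1 := dblG L P hq n π r ((1 + 3 * L.Δ ^ 2) * r) hr
  have h2 := choose_ge (3 * L.Δ ^ 2) r
  exact (Nat.mul_le_mul_left _ h2).trans h1

end

/-- the tail of the number of the diametral sites, in terms of longer walks -/
theorem Dm_tail {ι : Type} [Fintype ι] (Ls : ι → Lay V) {q : V → V → ℤ}
    (hq : ∀ i, MQ (Ls i) q) (hq0 : ∀ v u, v ≠ u → 0 < q v u) (hq1 : ∀ v, q v v ≤ 0)
    (hdom : ∀ v u, v ≠ u → ∃ i, Dom (Ls i) q v u) {o : V} (P : ∀ i, FamG (Ls i) o)
    {F : ℕ → Finset (List V)} (hF : ∀ i, (P i).F = F) {E : ℕ} (hΔ : ∀ i, (Ls i).Δ = E)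
    (hw : ∀ n, ∀ l ∈ F n, ∀ i, l ∈ WK (Ls i) Set.univ o n) (n r : ℕ) (hr : 1 ≤ r) :
    ((F n).filter (fun l => 2 + 4 * Fintype.card ι * ((1 + 3 * E ^ 2) * r) <
      (Dm q l).card)).card * (3 * E ^ 2) ^ r ≤
      4 * Fintype.card ι * (E + 1) ^ 2 * (F (n + 2 * r)).card := by
  have hsub : (F n).filter (fun l => 2 + 4 * Fintype.card ι * ((1 + 3 * E ^ 2) * r) <
      (Dm q l).card) ⊆ (Finset.univ : Finset ι).biUnion (fun i =>
        (Finset.range 2).biUnion (fun π =>
        ((P i).F n).filter (fun l => (1 + 3 * (Ls i).Δ ^ 2) * r ≤ (YS (Ls i) q o l n π).card))) := by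
    intro l hl
    rw [Finset.mem_filter] at hl
    obtain ⟨i, π, h1, h2⟩ := Dm_class Ls hq hq0 hq1 hdom (hw n l hl.1) hl.2
    rw [Finset.mem_biUnion]
    refine ⟨i, Finset.mem_univ _, ?_⟩
    rw [Finset.mem_biUnion]
    refine ⟨π, Finset.mem_range.2 h1, ?_⟩
    rw [Finset.mem_filter, hF i, hΔ i]
    exact ⟨hl.1, h2⟩
  have h1 := (Finset.card_le_card hsub).trans Finset.card_biUnion_le
  calc _ ≤ (∑ i : ι, ((Finset.range 2).biUnion (fun π =>
        ((P i).F n).filter (fun l => (1 + 3 * (Ls i).Δ ^ 2) * r ≤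
          (YS (Ls i) q o l n π).card))).card) * (3 * E ^ 2) ^ r := Nat.mul_le_mul_right _ h1
    _ = ∑ i : ι, ((Finset.range 2).biUnion (fun π =>
        ((P i).F n).filter (fun l => (1 + 3 * (Ls i).Δ ^ 2) * r ≤
          (YS (Ls i) q o l n π).card))).card * (3 * E ^ 2) ^ r := by rw [Finset.sum_mul]
    _ ≤ ∑ _i : ι, 4 * (E + 1) ^ 2 * (F (n + 2 * r)).card := by
        refine Finset.sum_le_sum fun i _ => ?_
        refine (Nat.mul_le_mul_right _ Finset.card_biUnion_le).trans ?_
        rw [Finset.sum_mul]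
        calc _ ≤ ∑ _π ∈ Finset.range 2, 2 * (E + 1) ^ 2 * (F (n + 2 * r)).card := by
              refine Finset.sum_le_sum fun π _ => ?_
              have := class_le (Ls i) (P i) (hq i) n π r hr
              rw [hF i, hΔ i] at this
              rw [hF i, hΔ i]
              exact this
          _ = _ := by
              rw [Finset.sum_const, Finset.card_range, smul_eq_mul]
              ring
    _ = _ := by
        rw [Finset.sum_const, Finset.card_univ, smul_eq_mul]
        ring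

end Run7.h647.DM
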