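import Pool.Agent.Run7.h647.DM.Tail
import Pool.Agent.Run7.h738.EX.Zd

/-! # The cubic lattices -/

set_option autoImplicit false

namespace Run7.h647.DM

open scoped Classical
open Run7.h738.EX

variable {d : ℕ}

/-- the squared Euclidean distance -/
def sqd (v u : Fin d → ℤ) : ℤ := ∑ k, (v k - u k) ^ 2

theorem sqd_symm (v u : Fin d → ℤ) : sqd v u = sqd u v := by
  unfold sqd
  refine Finset.sum_congr rfl fun k _ => ?_
  ring

theorem sqd_self (v : Fin d → ℤ) : sqd v v = 0 := by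
  unfold sqd
  simp

theorem sqd_pos {v u : Fin d → ℤ} (h : v ≠ u) : 0 < sqd v u := by
  obtain ⟨j, hj⟩ : ∃ j, v j ≠ u j := by
    by_contra hc
    push Not at hc
    exact h (funext hc)
  unfold sqd
  refine Finset.sum_pos' (fun k _ => sq_nonneg _) ⟨j, Finset.mem_univ _, ?_⟩
  have : v j - u j ≠ 0 := sub_ne_zero.2 hj
  positivity

theorem sqd_add (v u : Fin d → ℤ) (j : Fin d) (c : ℤ) :
    sqd (v + Pi.single j c) u = sqd v u + 2 * c * (v j - u j) + c ^ 2 := by
  unfold sqd
  have h : ∀ k, ((v + Pi.single j c : Fin d → ℤ) k - u k) ^ 2 = (v k - u k) ^ 2 +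
      (if k = j then (2 * c * (v j - u j) + c ^ 2) else 0) := by
    intro k
    split_ifs with hk
    · subst hk
      rw [Pi.add_apply, Pi.single_eq_same]
      ring
    · rw [Pi.add_apply, Pi.single_eq_of_ne hk]
      ring
  rw [Finset.sum_congr rfl (fun k _ => h k), Finset.sum_add_distrib,
    Finset.sum_ite_eq' Finset.univ j, if_pos (Finset.mem_univ j)]
  ring

/-- the sign -/
def sg (b : Bool) : ℤ := if b then 1 else -1

theorem sg_ok (b : Bool) : sg b = 1 ∨ sg b = -1 := by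
  cases b
  · right; rfl
  · left; rfl

/-- the cubic lattice with the height in the direction `i` -/
noncomputable def Ls (i : Fin d × Bool) : Lay (Fin d → ℤ) := zd i.1 (sg i.2) (sg_ok i.2)

theorem MQ_Ls (i : Fin d × Bool) : MQ (Ls i) (sqd (d := d)) := by
  refine ⟨sqd_symm, fun v u => ?_⟩
  show sqd (v + Pi.single i.1 (sg i.2)) u =
    sqd v u + 2 * (sg i.2 * v i.1 - sg i.2 * u i.1) + 1
  rw [sqd_add]
  have h : sg i.2 ^ 2 = 1 := by
    rcases sg_ok i.2 with h | h <;> rw [h] <;> norm_num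
  rw [h]
  ring

theorem Dom_Ls (v u : Fin d → ℤ) (h : v ≠ u) : ∃ i : Fin d × Bool, Dom (Ls i) sqd v u := by
  obtain ⟨j0, hj0⟩ : ∃ j, v j ≠ u j := by
    by_contra hc
    push Not at hc
    exact h (funext hc)
  obtain ⟨j, -, hj⟩ := Finset.exists_max_image (Finset.univ : Finset (Fin d))
    (fun k => |v k - u k|) ⟨j0, Finset.mem_univ _⟩
  have hpos : 0 < |v j - u j| :=
    lt_of_lt_of_le (abs_pos.2 (sub_ne_zero.2 hj0)) (hj j0 (Finset.mem_univ _))
  obtain ⟨b, hb⟩ : ∃ b : Bool, sg b * (v j - u j) = |v j - u j| := by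
    rcases le_total 0 (v j - u j) with h1 | h1
    · exact ⟨true, by rw [abs_of_nonneg h1]; simp [sg]⟩
    · exact ⟨false, by rw [abs_of_nonpos h1]; simp [sg]⟩
  refine ⟨(j, b), ?_, ?_⟩
  · show sg b * u j < sg b * v j
    have : sg b * v j - sg b * u j = |v j - u j| := by rw [← hb]; ring
    omega
  · intro w hw _
    have hw' : nnb v w := hw
    rw [nnb_iff] at hw'
    show sqd v u + 1 ≤ sqd w u + 2 * (sg b * v j - sg b * u j)
    have e : sg b * v j - sg b * u j = |v j - u j| := by rw [← hb]; ring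
    rw [e]
    obtain ⟨i, h1 | h1⟩ := hw'
    · rw [h1, sqd_add]
      have h2 := hj i (Finset.mem_univ _)
      have h3 := neg_abs_le (v i - u i)
      nlinarith
    · rw [h1, sqd_add]
      have h2 := hj i (Finset.mem_univ _)
      have h3 := le_abs_self (v i - u i)
      nlinarith

theorem WK_Ls (i j : Fin d × Bool) (o : Fin d → ℤ) (n : ℕ) :
    WK (Ls i) Set.univ o n = WK (Ls j) Set.univ o n := rfl

/-- the family of all the walks -/
noncomputable def Pw (o : Fin d → ℤ) (i j : Fin d × Bool) : FamG (Ls i) o where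
  F := fun n => WF (Ls j) Set.univ o n
  wk := by
    intro n l hl
    rw [mem_WF] at hl
    exact hl
  cl := by
    intro n l hl S hS hS2
    rw [mem_WF] at hl ⊢
    exact new_mem (Ls i) rfl (l := l) hl (fun _ _ => Set.mem_univ _) hS hS2

theorem zd_tail (o : Fin d → ℤ) (j : Fin d × Bool) (n r : ℕ) (hr : 1 ≤ r) :
    3 ^ r * ((WF (Ls j) Set.univ o n).filter
      (fun l => 2 + 8 * d * ((1 + 12 * d ^ 2) * r) < (Dm sqd l).card)).card ≤
      8 * d * (2 * d + 1) ^ 2 * (WF (Ls j) Set.univ o n).card := by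
  have h1 := Dm_tail (Ls (d := d)) MQ_Ls (fun v u h => sqd_pos h) (fun v => (sqd_self v).le)
    Dom_Ls (fun i => Pw o i j) (F := fun n => WF (Ls j) Set.univ o n) (fun i => rfl)
    (E := 2 * d) (fun i => rfl) (fun n l hl i => by
      rw [mem_WF] at hl
      exact hl) n r hr
  have hc : Fintype.card (Fin d × Bool) = 2 * d := by
    rw [Fintype.card_prod, Fintype.card_fin, Fintype.card_bool, mul_comm]
  rw [hc] at h1
  have h2 := WF_add (Ls j) Set.univ o n (2 * r)
  have hE : (Ls j).Δ = 2 * d := rfl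
  rw [hE] at h2
  have e1 : 4 * (2 * d) * ((1 + 3 * (2 * d) ^ 2) * r) = 8 * d * ((1 + 12 * d ^ 2) * r) := by ring
  rw [e1] at h1
  set A := ((WF (Ls j) Set.univ o n).filter
      (fun l => 2 + 8 * d * ((1 + 12 * d ^ 2) * r) < (Dm sqd l).card)).card with hA
  have hd : 0 < d := j.1.pos
  have hpos : 0 < (2 * d) ^ (2 * r) := Nat.pow_pos (by omega)
  refine Nat.le_of_mul_le_mul_left ?_ hpos
  have e3 : (3 * (2 * d) ^ 2) ^ r = 3 ^ r * (2 * d) ^ (2 * r) := by
    rw [mul_pow 3, ← pow_mul]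
  calc (2 * d) ^ (2 * r) * (3 ^ r * A) = A * (3 * (2 * d) ^ 2) ^ r := by
        rw [e3]
        ring
    _ ≤ 4 * (2 * d) * (2 * d + 1) ^ 2 * (WF (Ls j) Set.univ o (n + 2 * r)).card := h1
    _ ≤ 4 * (2 * d) * (2 * d + 1) ^ 2 * ((2 * d) ^ (2 * r) * (WF (Ls j) Set.univ o n).card) :=
        Nat.mul_le_mul_left _ h2
    _ = _ := by ring

theorem c_le {d : ℕ} (hd : 1 ≤ d) : 8 * d * (2 * d + 1) ^ 2 ≤ 3 ^ (5 * d) := by
  have h1 : d ≤ 3 ^ d := (Nat.lt_pow_self (by norm_num)).le
  have h2 : 2 * d + 1 ≤ 3 ^ d := by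
    induction d, hd using Nat.le_induction with
    | base => norm_num
    | succ k _ ih =>
      rw [pow_succ]
      have := ih (Nat.lt_pow_self (by norm_num)).le
      omega
  have h3 : 8 ≤ 3 ^ (2 * d) := by
    calc 8 ≤ 3 ^ 2 := by norm_num
      _ ≤ 3 ^ (2 * d) := Nat.pow_le_pow_right (by norm_num) (by omega)
  calc 8 * d * (2 * d + 1) ^ 2 ≤ 3 ^ (2 * d) * 3 ^ d * (3 ^ d) ^ 2 :=
        Nat.mul_le_mul (Nat.mul_le_mul h3 h1) (Nat.pow_le_pow_left h2 2)
    _ = _ := by
        rw [← pow_mul, ← pow_add, ← pow_add]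
        congr 1
        ring

/-- **the tail** -/
theorem zd_exp (o : Fin d → ℤ) (j : Fin d × Bool) (n : ℕ) {x : ℝ} (hx : 0 ≤ x) :
    (((WF (Ls j) Set.univ o n).filter
      (fun l => 630 * (d : ℝ) ^ 4 * (1 + x) < (Dm sqd l).card)).card : ℝ) ≤
      Real.exp (-x) * (WF (Ls j) Set.univ o n).card := by
  have hd : 1 ≤ d := j.1.pos
  have hd' : (1 : ℝ) ≤ d := by exact_mod_cast hd
  obtain ⟨r, hr⟩ : ∃ r, r = ⌈x⌉₊ + 5 * d := ⟨_, rfl⟩
  have h1 := zd_tail o j n r (by omega)
  have h2 := c_le hd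
  set c := (WF (Ls j) Set.univ o n).card with hc
  have hrx : (r : ℝ) ≤ (x + 1) + 5 * d := by
    have := (Nat.ceil_lt_add_one hx).le
    rw [hr]
    push_cast
    linarith
  have hsub : (WF (Ls j) Set.univ o n).filter
      (fun l => 630 * (d : ℝ) ^ 4 * (1 + x) < (Dm sqd l).card) ⊆
      (WF (Ls j) Set.univ o n).filter
      (fun l => 2 + 8 * d * ((1 + 12 * d ^ 2) * r) < (Dm sqd l).card) := by
    intro l hl
    rw [Finset.mem_filter] at hl ⊢
    refine ⟨hl.1, ?_⟩
    have h3 : ((2 + 8 * d * ((1 + 12 * d ^ 2) * r) : ℕ) : ℝ) ≤ 630 * (d : ℝ) ^ 4 * (1 + x) := by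
      push_cast
      have e1 : (1 : ℝ) + 12 * d ^ 2 ≤ 13 * d ^ 2 := by nlinarith
      have e2 : (x + 1) + 5 * d ≤ 6 * d * (1 + x) := by nlinarith
      have e3 : (1 : ℝ) ≤ d ^ 4 := one_le_pow₀ hd'
      have e4 : (1 : ℝ) * 1 ≤ d ^ 4 * (1 + x) := mul_le_mul e3 (by linarith) (by norm_num) (by positivity)
      calc 2 + 8 * (d : ℝ) * ((1 + 12 * d ^ 2) * r)
          ≤ 2 + 8 * d * ((13 * d ^ 2) * (6 * d * (1 + x))) := by
            gcongr
            exact hrx.trans e2
        _ = 2 + 624 * (d ^ 4 * (1 + x)) := by ring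
        _ ≤ _ := by linarith
    exact_mod_cast lt_of_le_of_lt h3 hl.2
  have h4 : (((WF (Ls j) Set.univ o n).filter
      (fun l => 2 + 8 * d * ((1 + 12 * d ^ 2) * r) < (Dm sqd l).card)).card : ℝ) ≤
      Real.exp (-x) * c := by
    set A := ((WF (Ls j) Set.univ o n).filter
      (fun l => 2 + 8 * d * ((1 + 12 * d ^ 2) * r) < (Dm sqd l).card)).card with hA
    have h5 : 3 ^ r * A ≤ 3 ^ (5 * d) * c := h1.trans (Nat.mul_le_mul_right _ h2)
    rw [hr, pow_add, mul_comm (3 ^ ⌈x⌉₊), mul_assoc] at h5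
    have h6 := Nat.le_of_mul_le_mul_left h5 (by positivity)
    have h7 : (3 : ℝ) ^ ⌈x⌉₊ * A ≤ c := by exact_mod_cast h6
    have h8 : Real.exp x ≤ 3 ^ ⌈x⌉₊ := by
      calc Real.exp x ≤ Real.exp (⌈x⌉₊ : ℝ) := Real.exp_le_exp.2 (Nat.le_ceil x)
        _ = Real.exp 1 ^ ⌈x⌉₊ := by rw [← Real.exp_nat_mul, mul_one]
        _ ≤ 3 ^ ⌈x⌉₊ := pow_le_pow_left₀ (Real.exp_pos _).le (by
            have := Real.exp_one_lt_d9
            linarith) _
    rw [Real.exp_neg, inv_mul_eq_div, le_div_iff₀ (Real.exp_pos x), mul_comm]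
    exact (mul_le_mul_of_nonneg_right h8 (Nat.cast_nonneg _)).trans h7
  refine le_trans ?_ h4
  exact_mod_cast Finset.card_le_card hsub

/-- the mean -/
theorem zd_mean (o : Fin d → ℤ) (j : Fin d × Bool) (n : ℕ) :
    ∑ l ∈ WF (Ls j) Set.univ o n, (Dm sqd l).card ≤
      1000 * d ^ 4 * (WF (Ls j) Set.univ o n).card := by
  have hd : 1 ≤ d := j.1.pos
  set W := WF (Ls j) Set.univ o n with hW
  set a := 8 * d * (1 + 12 * d ^ 2) with ha
  have ha1 : 1 ≤ a := by
    rw [ha]
    nlinarith [Nat.zero_le (d ^ 3)]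
  set c0 := 5 * d with hc0
  -- pointwise
  obtain ⟨T, hT⟩ : ∃ T, T = n + 1 := ⟨_, rfl⟩
  have hpt : ∀ l ∈ W, (Dm sqd l).card ≤ 2 + a + a * c0 + a * ∑ r ∈ Finset.range T,
      (if 2 + a * (c0 + r + 1) < (Dm sqd l).card then 1 else 0) := by
    intro l hl
    set X := (Dm sqd l).card with hX
    have hXn : X ≤ n + 1 := by
      rw [hW, mem_WF] at hl
      calc X ≤ l.length := Dm_len _ l
        _ = n + 1 := hl.1
    rw [← Finset.card_filter (fun r => 2 + a * (c0 + r + 1) < X) (Finset.range T)]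
    by_cases h : X ≤ 2 + a + a * c0
    · omega
    push Not at h
    -- number of thresholds below `X`
    set m := (X - 3 - a * c0) / a with hm
    have hm1 : a * m ≤ X - 3 - a * c0 := Nat.mul_div_le _ _
    have hm2 : X - 3 - a * c0 < a * (m + 1) := Nat.lt_mul_div_succ _ (by omega)
    have hmT : m ≤ T := by
      have : m ≤ X - 3 - a * c0 := Nat.div_le_self _ _
      omega
    have hsub : Finset.range m ⊆ (Finset.range T).filter
        (fun r => 2 + a * (c0 + r + 1) < X) := by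
      intro r hr
      rw [Finset.mem_range] at hr
      rw [Finset.mem_filter, Finset.mem_range]
      refine ⟨by omega, ?_⟩
      have h1 : a * (r + 1) ≤ a * m := Nat.mul_le_mul_left _ hr
      have e : a * (c0 + r + 1) = a * c0 + a * (r + 1) := by ring
      omega
    have h2 := Finset.card_le_card hsub
    rw [Finset.card_range] at h2
    have h3 : a * m ≤ a * ((Finset.range T).filter (fun r => 2 + a * (c0 + r + 1) < X)).card :=
      Nat.mul_le_mul_left _ h2
    rw [mul_add, mul_one] at hm2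
    omega
  have hsum : ∑ l ∈ W, (Dm sqd l).card ≤ (2 + a + a * c0) * W.card + a * ∑ r ∈ Finset.range T,
      (W.filter (fun l => 2 + a * (c0 + r + 1) < (Dm sqd l).card)).card := by
    refine (Finset.sum_le_sum hpt).trans (le_of_eq ?_)
    rw [Finset.sum_add_distrib, Finset.sum_const, smul_eq_mul, ← Finset.mul_sum, Finset.sum_comm,
      mul_comm]
    congr 2
    refine Finset.sum_congr rfl fun r _ => ?_
    rw [Finset.card_filter]
  have hterm : ∀ r : ℕ, 3 ^ (r + 1) *
      (W.filter (fun l => 2 + a * (c0 + r + 1) < (Dm sqd l).card)).card ≤ W.card := by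
    intro r
    have h1 := zd_tail o j n (c0 + r + 1) (by omega)
    have h2 := c_le hd
    have e : 8 * d * ((1 + 12 * d ^ 2) * (c0 + r + 1)) = a * (c0 + r + 1) := by
      rw [ha]
      ring
    rw [e] at h1
    have h3 := h1.trans (Nat.mul_le_mul_right _ h2)
    rw [add_assoc, pow_add, mul_assoc] at h3
    exact Nat.le_of_mul_le_mul_left h3 (by positivity)
  have hgeo : ∑ r ∈ Finset.range T,
      (W.filter (fun l => 2 + a * (c0 + r + 1) < (Dm sqd l).card)).card ≤ W.card := by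
    have h1 : ∀ T : ℕ, (2 * 3 ^ T) * ∑ r ∈ Finset.range T,
        (W.filter (fun l => 2 + a * (c0 + r + 1) < (Dm sqd l).card)).card ≤
          (3 ^ T - 1) * W.card := by
      intro T
      induction T with
      | zero => simp
      | succ T ih =>
        rw [Finset.sum_range_succ, mul_add]
        have h2 := hterm T
        set s := ∑ r ∈ Finset.range T,
          (W.filter (fun l => 2 + a * (c0 + r + 1) < (Dm sqd l).card)).card
        set t := (W.filter (fun l => 2 + a * (c0 + T + 1) < (Dm sqd l).card)).card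
        have h3 : 1 ≤ 3 ^ T := Nat.one_le_pow _ _ (by norm_num)
        obtain ⟨p, hp⟩ : ∃ p, 3 ^ T = p + 1 := ⟨3 ^ T - 1, by omega⟩
        rw [pow_succ, hp] at h2 ⊢
        rw [hp] at ih
        rw [Nat.add_sub_cancel] at ih
        have e1 : (p + 1) * 3 - 1 = 3 * p + 2 := by omega
        rw [e1]
        calc 2 * ((p + 1) * 3) * s + 2 * ((p + 1) * 3) * t
            = 3 * (2 * (p + 1) * s) + 2 * ((p + 1) * 3 * t) := by ring
          _ ≤ 3 * (p * W.card) + 2 * W.card := by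
              have := Nat.mul_le_mul_left 3 ih
              have := Nat.mul_le_mul_left 2 h2
              omega
          _ = (3 * p + 2) * W.card := by ring
    have h2 := h1 T
    have h3 : 1 ≤ 3 ^ T := Nat.one_le_pow _ _ (by norm_num)
    have h4 : (3 ^ T - 1) * W.card ≤ (2 * 3 ^ T) * W.card := Nat.mul_le_mul_right _ (by omega)
    exact Nat.le_of_mul_le_mul_left (h2.trans h4) (by omega)
  calc ∑ l ∈ W, (Dm sqd l).card ≤ (2 + a + a * c0) * W.card + a * W.card :=
        hsum.trans (Nat.add_le_add_left (Nat.mul_le_mul_left _ hgeo) _)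
    _ = (2 + 2 * a + a * c0) * W.card := by ring
    _ ≤ 1000 * d ^ 4 * W.card := by
        refine Nat.mul_le_mul_right _ ?_
        have e1 : 1 + 12 * d ^ 2 ≤ 13 * d ^ 2 := by nlinarith
        have e2 : a ≤ 8 * d * (13 * d ^ 2) := Nat.mul_le_mul_left _ e1
        have e3 : 2 + c0 ≤ 7 * d := by omega
        have e4 : 1 ≤ d ^ 4 := Nat.one_le_pow _ _ hd
        calc 2 + 2 * a + a * c0 = 2 + a * (2 + c0) := by ring
          _ ≤ 2 * d ^ 4 + (8 * d * (13 * d ^ 2)) * (7 * d) :=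
              Nat.add_le_add (by omega) (Nat.mul_le_mul e2 e3)
          _ = 730 * d ^ 4 := by ring
          _ ≤ _ := by omega

end Run7.h647.DM
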